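import Mathlib

/-!
Regular polygons minimise the energy with the kernel `1 / (a - cos θ)`, `a > 1`.
-/

namespace Pool.Agent.TPL

open Finset

noncomputable section

/-- The sequence `sinh (m η) / sinh η`, `a = cosh η`. -/
def sc (a : ℝ) : ℕ → ℝ
  | 0 => 0
  | 1 => 1
  | (n + 2) => 2 * a * sc a (n + 1) - sc a n

/-- The sequence `cosh (m η)`, `a = cosh η`. -/
def tq (a : ℝ) : ℕ → ℝ
  | 0 => 1
  | 1 => a
  | (n + 2) => 2 * a * tq a (n + 1) - tq a n

theorem sc_mono {a : ℝ} (ha : 1 ≤ a) (n : ℕ) : 0 ≤ sc a n ∧ sc a n ≤ sc a (n + 1) := by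
  induction n with
  | zero => simp [sc]
  | succ n ih =>
    obtain ⟨h1, h2⟩ := ih
    refine ⟨h1.trans h2, ?_⟩
    change sc a (n + 1) ≤ 2 * a * sc a (n + 1) - sc a n
    nlinarith

theorem tq_mono {a : ℝ} (ha : 1 ≤ a) (n : ℕ) : 1 ≤ tq a n ∧ tq a n ≤ tq a (n + 1) := by
  induction n with
  | zero => simp [tq, ha]
  | succ n ih =>
    obtain ⟨h1, h2⟩ := ih
    refine ⟨h1.trans h2, ?_⟩
    change tq a (n + 1) ≤ 2 * a * tq a (n + 1) - tq a n
    nlinarith

/-- `Re (w ^ (n + 2)) = 2 Re w Re (w ^ (n + 1)) - Re (w ^ n)` on the unit circle. -/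
theorem re_rec {w : ℂ} (hw : ‖w‖ = 1) (n : ℕ) :
    (w ^ (n + 2)).re = 2 * w.re * (w ^ (n + 1)).re - (w ^ n).re := by
  have h1 : w.re * w.re + w.im * w.im = 1 := by
    have := Complex.sq_norm w
    rw [hw, Complex.normSq_apply] at this
    linarith
  have e1 : (w ^ (n + 2)).re = (w ^ n).re * (w.re * w.re - w.im * w.im) -
      (w ^ n).im * (2 * w.re * w.im) := by
    rw [pow_add, Complex.mul_re, pow_two, Complex.mul_re, Complex.mul_im]
    ring
  have e2 : (w ^ (n + 1)).re = (w ^ n).re * w.re - (w ^ n).im * w.im := by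
    rw [pow_succ, Complex.mul_re]
  rw [e1, e2]
  linear_combination (-(w ^ n).re) * h1

/-- Functions on the unit circle with non-negative Fourier coefficients and degree below `M`. -/
def Pd (M : ℕ) (K : ℂ → ℝ) : Prop :=
  ∃ c : ℕ → ℝ, (∀ m, 0 ≤ c m) ∧ ∀ w : ℂ, ‖w‖ = 1 → K w = ∑ m ∈ range M, c m * (w ^ m).re

theorem Pd.mono {M M' : ℕ} (h : M ≤ M') {K : ℂ → ℝ} (hK : Pd M K) : Pd M' K := by
  obtain ⟨c, hc, hK⟩ := hK
  refine ⟨fun m => if m < M then c m else 0, fun m => ?_, fun w hw => ?_⟩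
  · dsimp only
    split_ifs
    · exact hc m
    · exact le_rfl
  · rw [hK w hw]
    rw [← Finset.sum_subset (Finset.range_mono h)]
    · refine Finset.sum_congr rfl fun m hm => ?_
      dsimp only
      rw [if_pos (Finset.mem_range.1 hm)]
    · intro m _ hm
      dsimp only
      rw [if_neg (by rwa [Finset.mem_range] at hm), zero_mul]

theorem Pd.sum {M : ℕ} {ι : Type} (s : Finset ι) {K : ι → ℂ → ℝ} (hK : ∀ i ∈ s, Pd M (K i)) :
    Pd M (fun w => ∑ i ∈ s, K i w) := by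
  classical
  induction s using Finset.induction_on with
  | empty => exact ⟨fun _ => 0, fun _ => le_rfl, fun w _ => by simp⟩
  | insert i s hi ih =>
    obtain ⟨c, hc, h1⟩ := hK i (Finset.mem_insert_self _ _)
    obtain ⟨c', hc', h2⟩ := ih fun j hj => hK j (Finset.mem_insert_of_mem hj)
    refine ⟨fun m => c m + c' m, fun m => add_nonneg (hc m) (hc' m), fun w hw => ?_⟩
    dsimp only
    have h2' := h2 w hw
    dsimp only at h2'
    rw [Finset.sum_insert hi, h1 w hw, h2', ← Finset.sum_add_distrib]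
    refine Finset.sum_congr rfl fun m _ => ?_
    ring

theorem Pd.two_mul {M : ℕ} {K : ℂ → ℝ} (hK : Pd M K) : Pd M (fun w => 2 * K w) := by
  obtain ⟨c, hc, h1⟩ := hK
  refine ⟨fun m => 2 * c m, fun m => mul_nonneg zero_le_two (hc m), fun w hw => ?_⟩
  dsimp only
  rw [h1 w hw, Finset.mul_sum]
  refine Finset.sum_congr rfl fun m _ => ?_
  ring

/-- The quotient `(T_j(a) - T_j(x)) / (a - x)`. -/
def Rq (a : ℝ) (j : ℕ) (w : ℂ) : ℝ :=
  ∑ m ∈ range j, (if m = 0 then 1 else 2) * sc a (j - m) * (w ^ m).re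

theorem Rq_pd {a : ℝ} (ha : 1 ≤ a) (j : ℕ) : Pd j (Rq a j) := by
  refine ⟨fun m => (if m = 0 then 1 else 2) * sc a (j - m), fun m => ?_, fun w _ => rfl⟩
  apply mul_nonneg
  · split_ifs <;> norm_num
  · exact (sc_mono ha _).1

theorem Rq_rec (a : ℝ) (j : ℕ) (w : ℂ) :
    Rq a (j + 2) w = 2 * a * Rq a (j + 1) w - Rq a j w + 2 * (w ^ (j + 1)).re := by
  unfold Rq
  rw [Finset.sum_range_succ, Finset.sum_range_succ, Finset.sum_range_succ _ j]
  have h1 : ∑ m ∈ range j, (if m = 0 then (1 : ℝ) else 2) * sc a (j + 2 - m) * (w ^ m).re =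
      2 * a * ∑ m ∈ range j, (if m = 0 then (1 : ℝ) else 2) * sc a (j + 1 - m) * (w ^ m).re -
      ∑ m ∈ range j, (if m = 0 then (1 : ℝ) else 2) * sc a (j - m) * (w ^ m).re := by
    rw [Finset.mul_sum, ← Finset.sum_sub_distrib]
    refine Finset.sum_congr rfl fun m hm => ?_
    rw [Finset.mem_range] at hm
    have e1 : j + 2 - m = (j - m) + 2 := by omega
    have e2 : j + 1 - m = (j - m) + 1 := by omega
    rw [e1, e2]
    simp only [sc]
    ring
  rw [h1]
  have e1 : j + 2 - (j + 1) = 1 := by omega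
  have e2 : j + 2 - j = 2 := by omega
  have e3 : j + 1 - j = 1 := by omega
  rw [e1, e2, e3]
  have s2 : sc a 2 = 2 * a * sc a 1 - sc a 0 := rfl
  rw [s2]
  have s1 : sc a 1 = 1 := rfl
  have s0 : sc a 0 = 0 := rfl
  rw [s1, s0, if_neg (Nat.succ_ne_zero j)]
  ring

theorem Rq_spec (a : ℝ) {w : ℂ} (hw : ‖w‖ = 1) (j : ℕ) :
    (a - w.re) * Rq a j w = tq a j - (w ^ j).re ∧
    (a - w.re) * Rq a (j + 1) w = tq a (j + 1) - (w ^ (j + 1)).re := by
  induction j with
  | zero =>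
    constructor
    · simp [Rq, tq]
    · simp [Rq, tq, sc]
  | succ j ih =>
    refine ⟨ih.2, ?_⟩
    rw [Rq_rec, re_rec hw]
    have e : tq a (j + 1 + 1) = 2 * a * tq a (j + 1) - tq a j := rfl
    rw [e]
    linear_combination 2 * a * ih.2 - ih.1

/-- The Fejer sum of a sequence. -/
def Dq (x : ℕ → ℝ) (M : ℕ) : ℝ := ∑ n ∈ range M, (1 + 2 * ∑ i ∈ range n, x (i + 1))

theorem Dq_normSq {w : ℂ} (hw : ‖w‖ = 1) (M : ℕ) :
    Dq (fun i => (w ^ i).re) M = Complex.normSq (∑ j ∈ range M, w ^ j) := by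
  have hw0 : w ≠ 0 := by
    rintro rfl
    simp at hw
  induction M with
  | zero => simp [Dq]
  | succ M ih =>
    have h1 : Dq (fun i => (w ^ i).re) (M + 1) =
        Dq (fun i => (w ^ i).re) M + (1 + 2 * ∑ i ∈ range M, (w ^ (i + 1)).re) := by
      unfold Dq
      rw [Finset.sum_range_succ]
    rw [h1, ih, Finset.sum_range_succ _ M, Complex.normSq_add]
    have h2 : Complex.normSq (w ^ M) = 1 := by
      rw [Complex.normSq_eq_norm_sq, norm_pow, hw, one_pow, one_pow]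
    have h3 : ((∑ j ∈ range M, w ^ j) * (starRingEnd ℂ) (w ^ M)).re =
        ∑ i ∈ range M, (w ^ (i + 1)).re := by
      rw [Finset.sum_mul, Complex.re_sum, ← Finset.sum_range_reflect]
      refine Finset.sum_congr rfl fun i hi => ?_
      rw [Finset.mem_range] at hi
      have hc : (starRingEnd ℂ) (w ^ M) = (w ^ M)⁻¹ := by
        rw [Complex.inv_def, h2]
        simp
      have e : M - 1 - i + (i + 1) = M := by omega
      have h4 : w ^ (M - 1 - i) * (w ^ M)⁻¹ = (starRingEnd ℂ) (w ^ (i + 1)) := by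
        have hc' : (starRingEnd ℂ) (w ^ (i + 1)) = (w ^ (i + 1))⁻¹ := by
          rw [Complex.inv_def, Complex.normSq_eq_norm_sq, norm_pow, hw, one_pow, one_pow]
          simp
        rw [hc']
        have h5 : w ^ M = w ^ (M - 1 - i) * w ^ (i + 1) := by rw [← pow_add, e]
        rw [h5]
        have hne1 : w ^ (M - 1 - i) ≠ 0 := pow_ne_zero _ hw0
        have hne2 : w ^ (i + 1) ≠ 0 := pow_ne_zero _ hw0
        field_simp
      rw [hc, h4, Complex.conj_re]
    rw [h2, h3]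
    ring

theorem Dq_t_pos {a : ℝ} (ha : 1 ≤ a) {M : ℕ} (hM : 0 < M) : 0 < Dq (tq a) M := by
  unfold Dq
  refine Finset.sum_pos (fun n _ => ?_) ⟨0, Finset.mem_range.2 hM⟩
  have : 0 ≤ ∑ i ∈ range n, tq a (i + 1) :=
    Finset.sum_nonneg fun i _ => zero_le_one.trans (tq_mono ha _).1
  linarith

/-- The positive definite part of the kernel. -/
def Kq (a : ℝ) (M : ℕ) (w : ℂ) : ℝ := ∑ n ∈ range M, 2 * ∑ i ∈ range n, Rq a (i + 1) w

theorem Kq_pd {a : ℝ} (ha : 1 ≤ a) (M : ℕ) : Pd M (Kq a M) := by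
  unfold Kq
  apply Pd.sum
  intro n hn
  rw [Finset.mem_range] at hn
  apply Pd.two_mul
  apply Pd.sum
  intro i hi
  rw [Finset.mem_range] at hi
  exact (Rq_pd ha (i + 1)).mono (by omega)

theorem Kq_spec (a : ℝ) {w : ℂ} (hw : ‖w‖ = 1) (M : ℕ) :
    (a - w.re) * Kq a M w = Dq (tq a) M - Dq (fun i => (w ^ i).re) M := by
  unfold Kq Dq
  rw [Finset.mul_sum, ← Finset.sum_sub_distrib]
  refine Finset.sum_congr rfl fun n _ => ?_
  have h1 : (a - w.re) * ∑ i ∈ range n, Rq a (i + 1) w =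
      ∑ i ∈ range n, tq a (i + 1) - ∑ i ∈ range n, (w ^ (i + 1)).re := by
    rw [Finset.mul_sum, ← Finset.sum_sub_distrib]
    exact Finset.sum_congr rfl fun i _ => (Rq_spec a hw i).2
  linear_combination 2 * h1

/-- The kernel is a positive definite trigonometric polynomial plus a non-negative function. -/
theorem ker_split {a : ℝ} (ha : 1 < a) {M : ℕ} (hM : 0 < M) {w : ℂ} (hw : ‖w‖ = 1) :
    1 / (a - w.re) = (Kq a M w + Complex.normSq (∑ j ∈ range M, w ^ j) / (a - w.re)) /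
      Dq (tq a) M := by
  have hD := Dq_t_pos ha.le hM
  have hre : w.re ≤ 1 := by
    rw [← hw]
    exact Complex.re_le_norm w
  have h0 : 0 < a - w.re := by linarith
  have h1 := Kq_spec a hw M
  rw [Dq_normSq hw] at h1
  field_simp
  linarith

/-- The double sum of a positive definite kernel. -/
theorem Pd.sum_sum_ge {M : ℕ} (hM : 0 < M) {K : ℂ → ℝ} (c : ℕ → ℝ) (hc : ∀ m, 0 ≤ c m)
    (hK : ∀ w : ℂ, ‖w‖ = 1 → K w = ∑ m ∈ range M, c m * (w ^ m).re)
    {ι : Type} [Fintype ι] (z : ι → ℂ) (hz : ∀ i, ‖z i‖ = 1) :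
    (Fintype.card ι : ℝ) ^ 2 * c 0 ≤ ∑ i, ∑ j, K (z i * (starRingEnd ℂ) (z j)) := by
  have h1 : ∀ i j, ‖z i * (starRingEnd ℂ) (z j)‖ = 1 := by
    intro i j
    rw [norm_mul, Complex.norm_conj, hz, hz, one_mul]
  have h2 : ∑ i, ∑ j, K (z i * (starRingEnd ℂ) (z j)) =
      ∑ m ∈ range M, c m * Complex.normSq (∑ i, z i ^ m) := by
    simp only [hK _ (h1 _ _)]
    have h3 : ∀ i, ∑ j, ∑ m ∈ range M, c m * ((z i * (starRingEnd ℂ) (z j)) ^ m).re =
        ∑ m ∈ range M, c m * ∑ j, ((z i * (starRingEnd ℂ) (z j)) ^ m).re := by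
      intro i
      rw [Finset.sum_comm]
      refine Finset.sum_congr rfl fun m _ => ?_
      rw [Finset.mul_sum]
    simp only [h3]
    rw [Finset.sum_comm]
    refine Finset.sum_congr rfl fun m _ => ?_
    rw [← Finset.mul_sum]
    congr 1
    have h4 : ((∑ i, z i ^ m) * (starRingEnd ℂ) (∑ i, z i ^ m)).re =
        Complex.normSq (∑ i, z i ^ m) := by
      rw [Complex.mul_conj, Complex.ofReal_re]
    rw [← h4, map_sum, Finset.sum_mul_sum, Complex.re_sum]
    refine Finset.sum_congr rfl fun i _ => ?_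
    rw [Complex.re_sum]
    refine Finset.sum_congr rfl fun j _ => ?_
    rw [mul_pow, map_pow]
  rw [h2]
  have h5 : (Fintype.card ι : ℝ) ^ 2 * c 0 = c 0 * Complex.normSq (∑ i, z i ^ 0) := by
    simp only [pow_zero, Finset.sum_const, Finset.card_univ, nsmul_eq_mul, mul_one]
    rw [Complex.normSq_natCast]
    ring
  rw [h5]
  exact Finset.single_le_sum (f := fun m => c m * Complex.normSq (∑ i, z i ^ m))
    (fun m _ => mul_nonneg (hc m) (Complex.normSq_nonneg _)) (Finset.mem_range.2 hM)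

/-- The sum of a kernel of degree below `M` over the `M`-th roots of unity. -/
theorem Pd.sum_roots {M : ℕ} (hM : 0 < M) {K : ℂ → ℝ} (c : ℕ → ℝ)
    (hK : ∀ w : ℂ, ‖w‖ = 1 → K w = ∑ m ∈ range M, c m * (w ^ m).re)
    {ζ : ℂ} (hζ : IsPrimitiveRoot ζ M) : ∑ j ∈ range M, K (ζ ^ j) = M * c 0 := by
  have hn : ‖ζ‖ = 1 := hζ.norm'_eq_one hM.ne'
  have h1 : ∀ j, K (ζ ^ j) = ∑ m ∈ range M, c m * ((ζ ^ j) ^ m).re :=
    fun j => hK _ (by rw [norm_pow, hn, one_pow])
  simp only [h1]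
  rw [Finset.sum_comm]
  have h2 : ∀ m ∈ range M, ∑ j ∈ range M, c m * ((ζ ^ j) ^ m).re =
      if m = 0 then M * c 0 else 0 := by
    intro m hm
    rw [← Finset.mul_sum]
    split_ifs with h
    · rw [h]
      simp
      ring
    · have h3 : ∑ j ∈ range M, ((ζ ^ j) ^ m).re = 0 := by
        rw [← Complex.re_sum]
        have h4 : ∑ j ∈ range M, (ζ ^ j) ^ m = 0 := by
          have h5 : ∀ j, (ζ ^ j) ^ m = (ζ ^ m) ^ j := fun j => by
            rw [← pow_mul, ← pow_mul, mul_comm]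
          simp only [h5]
          have hne : ζ ^ m ≠ 1 := hζ.pow_ne_one_of_pos_of_lt h (Finset.mem_range.1 hm)
          rw [geom_sum_eq hne, ← pow_mul, mul_comm m M, pow_mul, hζ.pow_eq_one, one_pow, sub_self,
            zero_div]
        rw [h4, Complex.zero_re]
      rw [h3, mul_zero]
  rw [Finset.sum_congr rfl h2, Finset.sum_ite_eq' (range M) 0, if_pos (Finset.mem_range.2 hM)]

/-- Regular polygons minimise the energy with the kernel `1 / (a - cos θ)`. -/
theorem circ_le {a : ℝ} (ha : 1 < a) {ι : Type} [Fintype ι] (hM : 0 < Fintype.card ι) {ζ : ℂ}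
    (hζ : IsPrimitiveRoot ζ (Fintype.card ι)) (z : ι → ℂ) (hz : ∀ i, ‖z i‖ = 1) :
    Fintype.card ι * ∑ j ∈ range (Fintype.card ι), 1 / (a - (ζ ^ j).re) ≤
      ∑ i, ∑ j, 1 / (a - (z i * (starRingEnd ℂ) (z j)).re) := by
  classical
  obtain ⟨M, hMe⟩ : ∃ M, M = Fintype.card ι := ⟨_, rfl⟩
  rw [← hMe] at hM hζ ⊢
  obtain ⟨c, hc, hK⟩ := Kq_pd ha.le M
  have hD := Dq_t_pos ha.le hM
  have hn : ‖ζ‖ = 1 := hζ.norm'_eq_one hM.ne'
  have h1 : ∀ i j, ‖z i * (starRingEnd ℂ) (z j)‖ = 1 := by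
    intro i j
    rw [norm_mul, Complex.norm_conj, hz, hz, one_mul]
  obtain ⟨Q, hQ⟩ : ∃ Q : ℂ → ℝ, Q = fun w =>
    Complex.normSq (∑ j ∈ range M, w ^ j) / (a - w.re) := ⟨_, rfl⟩
  have hQ0 : ∀ w : ℂ, ‖w‖ = 1 → 0 ≤ Q w := by
    intro w hw
    have hre : w.re ≤ 1 := by
      rw [← hw]
      exact Complex.re_le_norm w
    rw [hQ]
    exact div_nonneg (Complex.normSq_nonneg _) (by linarith)
  have hs : ∀ w : ℂ, ‖w‖ = 1 → 1 / (a - w.re) = (Kq a M w + Q w) / Dq (tq a) M := by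
    intro w hw
    rw [hQ]
    exact ker_split ha hM hw
  have hroot : ∑ j ∈ range M, 1 / (a - (ζ ^ j).re) = (M * c 0 + Q 1) / Dq (tq a) M := by
    have h2 : ∀ j ∈ range M, 1 / (a - (ζ ^ j).re) = (Kq a M (ζ ^ j) + Q (ζ ^ j)) / Dq (tq a) M :=
      fun j _ => hs _ (by rw [norm_pow, hn, one_pow])
    rw [Finset.sum_congr rfl h2, ← Finset.sum_div, Finset.sum_add_distrib,
      Pd.sum_roots hM c hK hζ]
    congr 2
    rw [Finset.sum_eq_single 0]
    · rw [pow_zero]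
    · intro j hj hj0
      rw [hQ]
      dsimp only
      have hne : ζ ^ j ≠ 1 := hζ.pow_ne_one_of_pos_of_lt hj0 (Finset.mem_range.1 hj)
      rw [geom_sum_eq hne, ← pow_mul, mul_comm j M, pow_mul, hζ.pow_eq_one, one_pow, sub_self,
        zero_div, Complex.normSq_zero, zero_div]
    · intro h
      exact absurd (Finset.mem_range.2 hM) h
  have hsum : ∑ i, ∑ j, 1 / (a - (z i * (starRingEnd ℂ) (z j)).re) =
      (∑ i, ∑ j, Kq a M (z i * (starRingEnd ℂ) (z j)) +
        ∑ i, ∑ j, Q (z i * (starRingEnd ℂ) (z j))) / Dq (tq a) M := by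
    rw [← Finset.sum_add_distrib, Finset.sum_div]
    refine Finset.sum_congr rfl fun i _ => ?_
    rw [← Finset.sum_add_distrib, Finset.sum_div]
    exact Finset.sum_congr rfl fun j _ => hs _ (h1 i j)
  rw [hroot, hsum, ← mul_div_assoc]
  apply div_le_div_of_nonneg_right _ hD.le
  have h3 := Pd.sum_sum_ge hM c hc hK z hz
  rw [← hMe] at h3
  have h4 : (M : ℝ) * Q 1 ≤ ∑ i, ∑ j, Q (z i * (starRingEnd ℂ) (z j)) := by
    have h5 : (M : ℝ) * Q 1 = ∑ i : ι, Q 1 := by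
      rw [Finset.sum_const, Finset.card_univ, nsmul_eq_mul, ← hMe]
    rw [h5]
    refine Finset.sum_le_sum fun i _ => ?_
    have h6 : Q 1 = Q (z i * (starRingEnd ℂ) (z i)) := by
      rw [Complex.mul_conj, Complex.normSq_eq_norm_sq, hz i]
      norm_num
    rw [h6]
    exact Finset.single_le_sum (f := fun j => Q (z i * (starRingEnd ℂ) (z j)))
      (fun j _ => hQ0 _ (h1 i j)) (Finset.mem_univ i)
  calc (M : ℝ) * (M * c 0 + Q 1) = (M : ℝ) ^ 2 * c 0 + M * Q 1 := by ring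
    _ ≤ _ := add_le_add h3 h4

end

end Pool.Agent.TPL
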