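import Mathlib

/-!
Strict convexity of `c / sqrt (2 - 2 cos θ) - 1 / sqrt (δ + κ (2 - 2 cos θ))`.
-/

namespace Pool.Agent.TPL

noncomputable section

/-- The function of the chord. -/
def hq (c δ κ x : ℝ) : ℝ := c / x - 1 / Real.sqrt (δ + κ * x ^ 2)

theorem q_pos {δ κ : ℝ} (hδ : 0 < δ) (hκ : 0 < κ) (x : ℝ) : 0 < δ + κ * x ^ 2 := by
  have := sq_nonneg x
  positivity

theorem hq_deriv {c δ κ : ℝ} (hδ : 0 < δ) (hκ : 0 < κ) {x : ℝ} (hx : 0 < x) :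
    HasDerivAt (hq c δ κ) (-(1 / x ^ 2 * (c - κ * (x / Real.sqrt (δ + κ * x ^ 2)) ^ 3))) x := by
  have hq0 := q_pos hδ hκ x
  have hs : 0 < Real.sqrt (δ + κ * x ^ 2) := Real.sqrt_pos.2 hq0
  have h1 : HasDerivAt (fun x : ℝ => δ + κ * x ^ 2) (κ * (2 * x)) x := by
    have := ((hasDerivAt_pow 2 x).const_mul κ).const_add δ
    simpa using this
  have h2 := (h1.sqrt hq0.ne').fun_inv hs.ne'
  have h3 := (hasDerivAt_inv hx.ne').const_mul c
  have h4 := h3.sub h2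
  have e : hq c δ κ = (fun y => c * y⁻¹) - fun y => (Real.sqrt (δ + κ * y ^ 2))⁻¹ := by
    funext y
    simp [hq, div_eq_mul_inv]
  rw [e]
  refine h4.congr_deriv ?_
  have hs2 := Real.sq_sqrt hq0.le
  obtain ⟨s, hs'⟩ : ∃ s, s = Real.sqrt (δ + κ * x ^ 2) := ⟨_, rfl⟩
  rw [← hs'] at hs ⊢
  field_simp
  ring

theorem ratio_mono {δ κ : ℝ} (hδ : 0 < δ) (hκ : 0 < κ) {x y : ℝ} (hx : 0 < x) (hxy : x < y) :
    x / Real.sqrt (δ + κ * x ^ 2) < y / Real.sqrt (δ + κ * y ^ 2) := by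
  have hy : 0 < y := hx.trans hxy
  have h1 := Real.sqrt_pos.2 (q_pos hδ hκ x)
  have h2 := Real.sqrt_pos.2 (q_pos hδ hκ y)
  rw [div_lt_div_iff₀ h1 h2]
  apply lt_of_pow_lt_pow_left₀ 2 (by positivity)
  rw [mul_pow, mul_pow, Real.sq_sqrt (q_pos hδ hκ x).le, Real.sq_sqrt (q_pos hδ hκ y).le]
  have h3 : x ^ 2 < y ^ 2 := by nlinarith
  nlinarith [sq_nonneg x, sq_nonneg y, mul_pos hδ (sub_pos.2 h3)]

theorem ratio_pos {δ κ : ℝ} (hδ : 0 < δ) (hκ : 0 < κ) {x : ℝ} (hx : 0 < x) :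
    0 < x / Real.sqrt (δ + κ * x ^ 2) := div_pos hx (Real.sqrt_pos.2 (q_pos hδ hκ x))

/-- The condition. -/
def Cnd (c δ κ : ℝ) : Prop := κ * (2 / Real.sqrt (δ + κ * 2 ^ 2)) ^ 3 ≤ c

theorem bracket_pos {c δ κ : ℝ} (hδ : 0 < δ) (hκ : 0 < κ) (h : Cnd c δ κ) {x : ℝ} (hx : 0 < x)
    (hx2 : x < 2) : 0 < c - κ * (x / Real.sqrt (δ + κ * x ^ 2)) ^ 3 := by
  have h1 := ratio_mono hδ hκ hx hx2
  have h2 := pow_lt_pow_left₀ h1 (ratio_pos hδ hκ hx).le (by norm_num : 3 ≠ 0)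
  unfold Cnd at h
  nlinarith

theorem hq_cont {c δ κ : ℝ} (hδ : 0 < δ) (hκ : 0 < κ) : ContinuousOn (hq c δ κ) (Set.Ioc 0 2) := by
  unfold hq
  apply ContinuousOn.sub
  · exact continuousOn_const.div continuousOn_id fun x hx => hx.1.ne'
  · refine continuousOn_const.div (Continuous.continuousOn ?_) fun x _ =>
      (Real.sqrt_pos.2 (q_pos hδ hκ x)).ne'
    fun_prop

theorem hq_anti {c δ κ : ℝ} (hδ : 0 < δ) (hκ : 0 < κ) (h : Cnd c δ κ) :
    StrictAntiOn (hq c δ κ) (Set.Ioc 0 2) := by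
  apply strictAntiOn_of_deriv_neg (convex_Ioc 0 2) (hq_cont hδ hκ)
  intro x hx
  rw [interior_Ioc] at hx
  rw [(hq_deriv hδ hκ hx.1).deriv, neg_lt_zero]
  apply mul_pos
  · have := hx.1
    positivity
  · exact bracket_pos hδ hκ h hx.1 hx.2

theorem hq_convex {c δ κ : ℝ} (hδ : 0 < δ) (hκ : 0 < κ) (h : Cnd c δ κ) :
    ConvexOn ℝ (Set.Ioc 0 2) (hq c δ κ) := by
  apply MonotoneOn.convexOn_of_deriv (convex_Ioc 0 2) (hq_cont hδ hκ)
  · rw [interior_Ioc]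
    intro x hx
    exact (hq_deriv hδ hκ hx.1).differentiableAt.differentiableWithinAt
  · rw [interior_Ioc]
    intro x hx y hy hxy
    rw [(hq_deriv hδ hκ hx.1).deriv, (hq_deriv hδ hκ hy.1).deriv, neg_le_neg_iff]
    rcases hxy.eq_or_lt with rfl | hlt
    · exact le_rfl
    have h1 : 1 / y ^ 2 ≤ 1 / x ^ 2 := by
      apply one_div_le_one_div_of_le (pow_pos hx.1 2)
      exact pow_le_pow_left₀ hx.1.le hxy 2
    have h2 := pow_le_pow_left₀ (ratio_pos hδ hκ hx.1).le (ratio_mono hδ hκ hx.1 hlt).le 3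
    have h3 : c - κ * (y / Real.sqrt (δ + κ * y ^ 2)) ^ 3 ≤
        c - κ * (x / Real.sqrt (δ + κ * x ^ 2)) ^ 3 := by
      have := mul_le_mul_of_nonneg_left h2 hκ.le
      linarith
    have h5 := hy.1
    have h6 := hx.1
    exact mul_le_mul h1 h3 (bracket_pos hδ hκ h hy.1 hy.2).le (by positivity)

theorem chord_mem {t : ℝ} (ht : t ∈ Set.Ioo 0 (2 * Real.pi)) :
    2 * Real.sin (t / 2) ∈ Set.Ioc (0 : ℝ) 2 := by
  refine ⟨mul_pos two_pos (Real.sin_pos_of_pos_of_lt_pi (by linarith [ht.1]) (by linarith [ht.2])),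
    ?_⟩
  linarith [Real.sin_le_one (t / 2)]

theorem two_sub_cos (t : ℝ) : 2 - 2 * Real.cos t = (2 * Real.sin (t / 2)) ^ 2 := by
  have h := Real.cos_sq' (t / 2)
  have h2 := Real.cos_sq (t / 2)
  have e : 2 * (t / 2) = t := by ring
  rw [e] at h2
  nlinarith

/-- The kernel as a function of the arc is strictly convex. -/
theorem ker_convex {c δ κ : ℝ} (hδ : 0 < δ) (hκ : 0 < κ) (h : Cnd c δ κ) :
    StrictConvexOn ℝ (Set.Ioo 0 (2 * Real.pi)) fun t => c / Real.sqrt (2 - 2 * Real.cos t) -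
      1 / Real.sqrt (δ + κ * (2 - 2 * Real.cos t)) := by
  have hval : ∀ t ∈ Set.Ioo 0 (2 * Real.pi), c / Real.sqrt (2 - 2 * Real.cos t) -
      1 / Real.sqrt (δ + κ * (2 - 2 * Real.cos t)) = hq c δ κ (2 * Real.sin (t / 2)) := by
    intro t ht
    unfold hq
    rw [two_sub_cos, Real.sqrt_sq (chord_mem ht).1.le]
  refine ⟨convex_Ioo _ _, fun x hx y hy hxy a b ha hb hab => ?_⟩
  have hz : a • x + b • y ∈ Set.Ioo 0 (2 * Real.pi) :=
    (convex_Ioo 0 (2 * Real.pi)) hx hy ha.le hb.le hab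
  dsimp only
  rw [hval x hx, hval y hy, hval _ hz]
  have hmx := chord_mem hx
  have hmy := chord_mem hy
  have hmz := chord_mem hz
  have h1 : a • (2 * Real.sin (x / 2)) + b • (2 * Real.sin (y / 2)) <
      2 * Real.sin ((a • x + b • y) / 2) := by
    have h2 := strictConcaveOn_sin_Icc.2 (x := x / 2) ⟨by linarith [hx.1], by linarith [hx.2]⟩
      (y := y / 2) ⟨by linarith [hy.1], by linarith [hy.2]⟩ (fun e => hxy (by linarith)) ha hb hab
    simp only [smul_eq_mul] at h2 ⊢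
    have e : a * (x / 2) + b * (y / 2) = (a * x + b * y) / 2 := by ring
    rw [e] at h2
    linarith
  have hm : a • (2 * Real.sin (x / 2)) + b • (2 * Real.sin (y / 2)) ∈ Set.Ioc (0 : ℝ) 2 :=
    (convex_Ioc (0 : ℝ) 2) hmx hmy ha.le hb.le hab
  exact (hq_anti hδ hκ h hm hmz h1).trans_le
    ((hq_convex hδ hκ h).2 hmx hmy ha.le hb.le hab)

/-- The kernel `1 / sqrt (2 - 2 cos t)` is strictly convex on the arc. -/
theorem ker_convex0 : StrictConvexOn ℝ (Set.Ioo 0 (2 * Real.pi)) fun t =>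
    1 / Real.sqrt (2 - 2 * Real.cos t) := by
  have hval : ∀ t ∈ Set.Ioo 0 (2 * Real.pi), 1 / Real.sqrt (2 - 2 * Real.cos t) =
      (2 * Real.sin (t / 2))⁻¹ := by
    intro t ht
    rw [two_sub_cos, Real.sqrt_sq (chord_mem ht).1.le, one_div]
  refine ⟨convex_Ioo _ _, fun x hx y hy hxy a b ha hb hab => ?_⟩
  have hz : a • x + b • y ∈ Set.Ioo 0 (2 * Real.pi) :=
    (convex_Ioo 0 (2 * Real.pi)) hx hy ha.le hb.le hab
  dsimp only
  rw [hval x hx, hval y hy, hval _ hz]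
  have hmx := chord_mem hx
  have hmy := chord_mem hy
  have hmz := chord_mem hz
  have h1 : a • (2 * Real.sin (x / 2)) + b • (2 * Real.sin (y / 2)) <
      2 * Real.sin ((a • x + b • y) / 2) := by
    have h2 := strictConcaveOn_sin_Icc.2 (x := x / 2) ⟨by linarith [hx.1], by linarith [hx.2]⟩
      (y := y / 2) ⟨by linarith [hy.1], by linarith [hy.2]⟩ (fun e => hxy (by linarith)) ha hb hab
    simp only [smul_eq_mul] at h2 ⊢
    have e : a * (x / 2) + b * (y / 2) = (a * x + b * y) / 2 := by ring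
    rw [e] at h2
    linarith
  have hm : a • (2 * Real.sin (x / 2)) + b • (2 * Real.sin (y / 2)) ∈ Set.Ioi (0 : ℝ) :=
    (convex_Ioi (0 : ℝ)) hmx.1 hmy.1 ha.le hb.le hab
  have hcv : ConvexOn ℝ (Set.Ioi (0 : ℝ)) fun x : ℝ => x⁻¹ := by
    have := convexOn_zpow (𝕜 := ℝ) (-1)
    simpa using this
  have h3 := hcv.2 (x := 2 * Real.sin (x / 2)) hmx.1 (y := 2 * Real.sin (y / 2)) hmy.1 ha.le hb.le
    hab
  exact (inv_strictAnti₀ hm h1).trans_le h3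

end

end Pool.Agent.TPL
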