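import Pool.Agent.TPL.Two
import Pool.Agent.CFC.Ext

/-!
The uniqueness of the minimiser among the configurations with the same number of points in two
parallel planes.
-/

namespace Pool.Agent.TPL

open Finset Pool.Agent.Helper15.Thomson

noncomputable section

theorem TwoPlanes.of_eqv {N m : ℕ} {X Y : Finset E3} (h : Eqv X Y) (hX : TwoPlanes N m X) :
    TwoPlanes N m Y := by
  classical
  obtain ⟨T, rfl⟩ := h.exists_image
  obtain ⟨hc, e, he, a, b, A, B, hAX, hBX, hd, hcA, hcB, hA, hB, hP⟩ := hX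
  have hval : ∀ x, T.toEquiv.toEmbedding x = T x := fun x => rfl
  refine ⟨h.isConfig hc, T e, by rw [T.norm_map]; exact he, a, b, A.map T.toEquiv.toEmbedding,
    B.map T.toEquiv.toEmbedding, Finset.map_subset_map.2 hAX, Finset.map_subset_map.2 hBX,
    (Finset.disjoint_map _).2 hd, by rw [Finset.card_map, hcA], by rw [Finset.card_map, hcB],
    ?_, ?_, ?_⟩
  · intro y hy
    rw [Finset.mem_map] at hy
    obtain ⟨x, hx, rfl⟩ := hy
    rw [hval, T.inner_map_map]
    exact hA x hx
  · intro y hy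
    rw [Finset.mem_map] at hy
    obtain ⟨x, hx, rfl⟩ := hy
    rw [hval, T.inner_map_map]
    exact hB x hx
  · intro y hy hyA hyB
    rw [Finset.mem_map] at hy
    obtain ⟨x, hx, rfl⟩ := hy
    rw [Finset.mem_map' T.toEquiv.toEmbedding] at hyA hyB
    rw [hval]
    rcases hP x hx hyA hyB with h1 | h1
    · left; rw [h1]
    · right; rw [h1, map_neg]

theorem inner_pole (v : E3) : inner ℝ v (pt 0 1) = v 2 := by
  rw [EuclideanSpace.inner_eq_star_dotProduct]
  simp [pt, dotProduct, Fin.sum_univ_three]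

theorem norm_pole : ‖pt 0 1‖ = 1 := by
  rw [norm_pt_eq_one]
  simp

theorem neg_pole : -pt 0 1 = pt 0 (-1) := by
  ext i
  fin_cases i <;> simp [pt]

/-- The comparison for the configurations of the class. -/
theorem key_two {N m : ℕ} (hN : 3 ≤ N) (hm : m = 0 ∨ m = 2) {X : Finset E3}
    (hX : TwoPlanes N m X) :
    ∃ Y, IsConfig (2 * N + m) Y ∧ HasAxis N Y ∧ energy Y ≤ energy X ∧
      (energy X ≤ energy Y → HasAxis N X) := by
  classical
  obtain ⟨hc, e, he, a, b, A, B, hAX, hBX, hd, hcA, hcB, hA, hB, hP⟩ := hX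
  obtain ⟨T, hT⟩ := CFC.exists_iso (ι := Unit) (fun _ => e) (fun _ => pt 0 1) (by
    intro _ _
    rw [real_inner_self_eq_norm_sq, real_inner_self_eq_norm_sq, he, norm_pole])
  have hTe : T e = pt 0 1 := hT ()
  have hval : ∀ x, T.toEquiv.toEmbedding x = T x := fun x => rfl
  have hEq := eqv_map X T
  obtain ⟨A', hA'⟩ : ∃ A', A' = A.map T.toEquiv.toEmbedding := ⟨_, rfl⟩
  obtain ⟨B', hB'⟩ : ∃ B', B' = B.map T.toEquiv.toEmbedding := ⟨_, rfl⟩
  obtain ⟨P, hPd⟩ : ∃ P, P = X \ (A ∪ B) := ⟨_, rfl⟩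
  have hplane : ∀ x, (T x) 2 = inner ℝ x e := by
    intro x
    rw [← inner_pole, ← hTe, T.inner_map_map]
  have hAp : ∀ x ∈ A', ‖x‖ = 1 ∧ x 2 = a := by
    intro y hy
    rw [hA', Finset.mem_map] at hy
    obtain ⟨x, hx, rfl⟩ := hy
    rw [hval, T.norm_map, hplane]
    exact ⟨hc.2 x (hAX hx), hA x hx⟩
  have hBp : ∀ x ∈ B', ‖x‖ = 1 ∧ x 2 = b := by
    intro y hy
    rw [hB', Finset.mem_map] at hy
    obtain ⟨x, hx, rfl⟩ := hy
    rw [hval, T.norm_map, hplane]
    exact ⟨hc.2 x (hBX hx), hB x hx⟩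
  have hsub : A ∪ B ⊆ X := Finset.union_subset hAX hBX
  have hPc : P.card = m := by
    have h1 := Finset.card_sdiff_add_card_eq_card hsub
    rw [← hPd, Finset.card_union_of_disjoint hd, hcA, hcB, hc.1] at h1
    omega
  have hPsub : P.map T.toEquiv.toEmbedding ⊆ {pt 0 1, pt 0 (-1)} := by
    intro y hy
    rw [Finset.mem_map] at hy
    obtain ⟨x, hx, rfl⟩ := hy
    rw [hPd, Finset.mem_sdiff, Finset.mem_union, not_or] at hx
    rw [hval, Finset.mem_insert, Finset.mem_singleton, ← neg_pole, ← hTe, ← map_neg]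
    rcases hP x hx.1 hx.2.1 hx.2.2 with h1 | h1
    · left; rw [h1]
    · right; rw [h1]
  have hPp : P.map T.toEquiv.toEmbedding = poles m := by
    rcases hm with rfl | rfl
    · rw [poles_zero]
      rw [Finset.card_eq_zero] at hPc
      rw [hPc, Finset.map_empty]
    · rw [poles_two]
      apply Finset.eq_of_subset_of_card_le hPsub
      rw [Finset.card_map, hPc]
      exact Finset.card_le_two
  have hXm : X.map T.toEquiv.toEmbedding = poles m ∪ (A' ∪ B') := by
    rw [hA', hB', ← Finset.map_union, ← hPp, ← Finset.map_union, hPd,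
      Finset.sdiff_union_of_subset hsub]
  have hdAB : Disjoint A' B' := by
    rw [hA', hB']
    exact (Finset.disjoint_map _).2 hd
  have hdP : Disjoint (poles m) (A' ∪ B') := by
    rw [hA', hB', ← Finset.map_union, ← hPp, Finset.disjoint_map, hPd]
    exact Finset.sdiff_disjoint
  obtain ⟨Y, h1, h2, h3, h4⟩ := key_le hN hm hAp hBp hdAB hdP (by rw [hA', Finset.card_map, hcA])
    (by rw [hB', Finset.card_map, hcB])
  rw [← hXm, ← hEq.energy_eq] at h3 h4
  exact ⟨Y, h1, h2, h3, fun h5 => HasAxis.of_eqv hEq.symm (h4 h5)⟩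

/-- The standard configurations are in the class. -/
theorem two_of_axis {N m : ℕ} (hN : 3 ≤ N) (hm : m ≤ 2) {X : Finset E3}
    (hX : IsConfig (2 * N + m) X) (hax : HasAxis N X) : TwoPlanes N m X := by
  classical
  obtain ⟨p, k, X', hp, hk, hn, hE, hS⟩ := exists_std_of_axis hN (by omega) hX hax
  have hk2 : k = 2 := by
    interval_cases k
    · omega
    · omega
    · rfl
  subst hk2
  have hpm : p = m := by omega
  subst hpm
  apply TwoPlanes.of_eqv hE.symm
  have hcfg := hE.isConfig hX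
  rcases hS with ⟨h, _⟩ | ⟨h, _⟩ | ⟨_, w, h, w', h', hw, hw', h1, h2, hd, rfl⟩
  · omega
  · omega
  · have hN0 : N ≠ 0 := by omega
    refine ⟨hcfg, pt 0 1, norm_pole, h, h', ring N w h, ring N w' h', ?_, ?_, hd,
      card_ring hN0 hw h, card_ring hN0 hw' h', ?_, ?_, ?_⟩
    · exact Finset.subset_union_left.trans Finset.subset_union_right
    · exact Finset.subset_union_right.trans Finset.subset_union_right
    · intro x hx
      rw [inner_pole]
      exact ((mem_ring hN0 hw).1 hx).2
    · intro x hx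
      rw [inner_pole]
      exact ((mem_ring hN0 hw').1 hx).2
    · intro x hx hxA hxB
      rw [Finset.mem_union, Finset.mem_union] at hx
      rcases hx with hx | hx | hx
      · have h3 := mem_poles hx
        have h4 : x 2 = 1 ∨ x 2 = -1 := by
          have h5 : (x 2 - 1) * (x 2 + 1) = 0 := by linear_combination h3.2
          rcases mul_eq_zero.1 h5 with h6 | h6
          · left; linarith
          · right; linarith
        rw [neg_pole]
        rcases h4 with h4 | h4
        · left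
          rw [← pt_hz x, h3.1, h4]
        · right
          rw [← pt_hz x, h3.1, h4]
      · exact absurd hx hxA
      · exact absurd hx hxB

/-- The minimiser in the class exists, is unique, and has an axis of order `N`. -/
theorem two_unique {N m : ℕ} (hN : 3 ≤ N) (hm : m = 0 ∨ m = 2) :
    ∃ X, IsMinTwo N m X ∧ HasAxis N X ∧ ∀ Y, IsMinTwo N m Y → Eqv X Y := by
  have hm2 : m ≤ 2 := by omega
  have hN0 : N ≠ 0 := by omega
  obtain ⟨h1, h2, -⟩ := stdY_spec (m := m) (N := N) (r := 1) (r' := 1) (a := 0) (b := 0) hm2 hN0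
    one_pos one_pos (by norm_num) (by norm_num)
  obtain ⟨X, hX, hu⟩ := main' hN (show 2 * N + m < 3 * N by omega) ⟨_, h1, h2⟩
  refine ⟨X, ⟨two_of_axis hN hm2 hX.1 hX.2.1, fun Y hY => ?_⟩, hX.2.1, fun Y hY => ?_⟩
  · obtain ⟨Z, hZ, hZa, hle, -⟩ := key_two hN hm hY
    exact (hX.2.2 Z hZ hZa).trans hle
  · obtain ⟨Z, hZ, hZa, hle, himp⟩ := key_two hN hm hY.1
    have h3 := hY.2 Z (two_of_axis hN hm2 hZ hZa)
    have hYa := himp h3
    apply hu
    refine ⟨hY.1.1, hYa, fun W hW hWa => ?_⟩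
    exact hY.2 W (two_of_axis hN hm2 hW hWa)

end

end Pool.Agent.TPL
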