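import Pool.Agent.TPL.Main

/-!
Configurations with the same number of points in two parallel planes: the energy in coordinates.
-/

namespace Pool.Agent.TPL

open Finset Pool.Agent.Helper15 Pool.Agent.Helper15.Thomson

noncomputable section

/-- The potential of the poles. -/
def polePot (m : ℕ) (a : ℝ) : ℝ := ∑ p ∈ poles m, 1 / Real.sqrt (2 - 2 * p 2 * a)

theorem inter_poles_plane {m : ℕ} {S : Finset E3} {a : ℝ} (hS : ∀ x ∈ S, ‖x‖ = 1 ∧ x 2 = a) :
    inter (poles m) S = S.card * polePot m a := by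
  unfold inter polePot
  rw [Finset.mul_sum]
  refine Finset.sum_congr rfl fun p hp => ?_
  rw [← nsmul_eq_mul, ← Finset.sum_const]
  refine Finset.sum_congr rfl fun x hx => ?_
  obtain ⟨h1, h2⟩ := hS x hx
  have hp' := mem_poles hp
  have hpn := norm_poles hp
  rw [← pt_hz x, norm_pt_eq_one] at h1
  rw [← pt_hz p, norm_pt_eq_one] at hpn
  have e : dist p x = dist (pt (hz p) (p 2)) (pt (hz x) (x 2)) := by rw [pt_hz, pt_hz]
  rw [e, dist_sphere hpn h1, hp'.1, h2]
  simp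

/-- The unit vectors of the points of a circle. -/
def dirs (r : ℝ) (A : Finset E3) : Finset ℂ := open Classical in A.image fun x => hz x / r

theorem plane_inj {r : ℝ} (hr : 0 < r) {A : Finset E3} {a : ℝ} (hA : ∀ x ∈ A, x 2 = a) :
    Set.InjOn (fun x : E3 => hz x / (r : ℂ)) (A : Set E3) := by
  intro x hx y hy h
  have hr0 : (r : ℂ) ≠ 0 := by exact_mod_cast hr.ne'
  have h1 : hz x = hz y := by
    dsimp only at h
    field_simp at h
    exact h
  rw [← pt_hz x, ← pt_hz y, h1, hA x hx, hA y hy]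

theorem sum_dirs {r : ℝ} (hr : 0 < r) {A : Finset E3} {a : ℝ} (hA : ∀ x ∈ A, x 2 = a)
    (g : ℂ → ℝ) : ∑ u ∈ dirs r A, g u = ∑ x ∈ A, g (hz x / r) := by
  classical
  unfold dirs
  rw [Finset.sum_image (plane_inj hr hA)]

theorem card_dirs {r : ℝ} (hr : 0 < r) {A : Finset E3} {a : ℝ} (hA : ∀ x ∈ A, x 2 = a) :
    (dirs r A).card = A.card := by
  classical
  unfold dirs
  rw [Finset.card_image_of_injOn (plane_inj hr hA)]

theorem norm_dirs {r : ℝ} (hr : 0 < r) {A : Finset E3} {a : ℝ} (h1 : r ^ 2 + a ^ 2 = 1)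
    (hA : ∀ x ∈ A, ‖x‖ = 1 ∧ x 2 = a) : ∀ u ∈ dirs r A, ‖u‖ = 1 := by
  classical
  intro u hu
  unfold dirs at hu
  rw [Finset.mem_image] at hu
  obtain ⟨x, hx, rfl⟩ := hu
  obtain ⟨h2, h3⟩ := hA x hx
  rw [← pt_hz x, norm_pt_eq_one, h3] at h2
  have h4 : ‖hz x‖ = r := by
    have : ‖hz x‖ ^ 2 = r ^ 2 := by linarith
    exact (pow_left_inj₀ (norm_nonneg _) hr.le two_ne_zero).1 this
  rw [norm_div, h4, Complex.norm_real, Real.norm_eq_abs, abs_of_pos hr, div_self hr.ne']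

theorem dist_planes {r r' a b : ℝ} (hr : 0 < r) (hr' : 0 < r') {x y : E3}
    (hx : ‖x‖ = 1) (hy : ‖y‖ = 1) (hxa : x 2 = a) (hyb : y 2 = b) :
    1 / dist x y = Gk r r' a b ((hz x / r) * (starRingEnd ℂ) (hz y / r')).re := by
  rw [← pt_hz x, norm_pt_eq_one] at hx
  rw [← pt_hz y, norm_pt_eq_one] at hy
  have e : dist x y = dist (pt (hz x) (x 2)) (pt (hz y) (y 2)) := by rw [pt_hz, pt_hz]
  rw [e, dist_sphere hx hy, hxa, hyb, Gk]
  congr 3
  have hr0 : (r : ℂ) ≠ 0 := by exact_mod_cast hr.ne'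
  have hr0' : (r' : ℂ) ≠ 0 := by exact_mod_cast hr'.ne'
  have e1 : hz y * (starRingEnd ℂ) (hz x) =
      ((r * r' : ℝ) : ℂ) * (starRingEnd ℂ) (hz x / r * (starRingEnd ℂ) (hz y / r')) := by
    rw [map_mul, map_div₀, Complex.conj_conj, Complex.conj_ofReal]
    push_cast
    field_simp
  rw [e1, Complex.re_ofReal_mul, Complex.conj_re]
  ring

theorem inter_planes {r r' a b : ℝ} (hr : 0 < r) (hr' : 0 < r') {A B : Finset E3}
    (hA : ∀ x ∈ A, ‖x‖ = 1 ∧ x 2 = a) (hB : ∀ x ∈ B, ‖x‖ = 1 ∧ x 2 = b) :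
    inter A B = ∑ u ∈ dirs r A, ∑ v ∈ dirs r' B, Gk r r' a b (u * (starRingEnd ℂ) v).re := by
  unfold inter
  rw [sum_dirs hr fun x hx => (hA x hx).2]
  refine Finset.sum_congr rfl fun x hx => ?_
  rw [sum_dirs hr' (fun x hx => (hB x hx).2)
    (fun v => Gk r r' a b (hz x / r * (starRingEnd ℂ) v).re)]
  exact Finset.sum_congr rfl fun y hy => dist_planes hr hr' (hA x hx).1 (hB y hy).1 (hA x hx).2
    (hB y hy).2

theorem Gk_self {r a : ℝ} (hr : 0 < r) (h1 : r ^ 2 + a ^ 2 = 1) (x : ℝ) :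
    Gk r r a a x = 1 / r / Real.sqrt (2 - 2 * x) := by
  unfold Gk
  have e : 2 - 2 * a * a - 2 * (r * r) * x = r ^ 2 * (2 - 2 * x) := by
    linear_combination -2 * h1
  rw [e, Real.sqrt_mul (sq_nonneg r), Real.sqrt_sq hr.le, div_div]

theorem inter_self_plane {r a : ℝ} (hr : 0 < r) (h1 : r ^ 2 + a ^ 2 = 1) {A : Finset E3}
    (hA : ∀ x ∈ A, ‖x‖ = 1 ∧ x 2 = a) :
    inter A A = ∑ u ∈ dirs r A, ∑ v ∈ dirs r A,
      1 / r / Real.sqrt (2 - 2 * (u * (starRingEnd ℂ) v).re) := by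
  rw [inter_planes hr hr hA hA]
  simp only [Gk_self hr h1]

open Classical in
/-- The energy of a configuration in two parallel planes, with poles. -/
theorem energy_planes {m N : ℕ} {r r' a b : ℝ} (hr : 0 < r) (hr' : 0 < r')
    (h1 : r ^ 2 + a ^ 2 = 1) (h2 : r' ^ 2 + b ^ 2 = 1) {A B : Finset E3}
    (hA : ∀ x ∈ A, ‖x‖ = 1 ∧ x 2 = a) (hB : ∀ x ∈ B, ‖x‖ = 1 ∧ x 2 = b) (hAB : Disjoint A B)
    (hP : Disjoint (poles m) (A ∪ B)) (hcA : A.card = N) (hcB : B.card = N) :
    energy (poles m ∪ (A ∪ B)) = ep m + N * polePot m a + N * polePot m b +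
      Tk r r' a b (dirs r A) (dirs r' B) := by
  have hPA : Disjoint (poles m) A := hP.mono_right Finset.subset_union_left
  have hPB : Disjoint (poles m) B := hP.mono_right Finset.subset_union_right
  rw [energy_eq, inter_union_left _ hP, inter_union_right _ hP, inter_union_right _ hP,
    inter_union_left _ hAB, inter_union_left _ hAB, inter_union_right _ hAB,
    inter_union_right _ hAB, inter_union_right _ hAB, Thomson.inter_comm A (poles m),
    Thomson.inter_comm B (poles m), Thomson.inter_comm B A, inter_poles_plane hA, inter_poles_plane hB,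
    inter_self_plane hr h1 hA, inter_self_plane hr' h2 hB, inter_planes hr hr' hA hB, ep, Tk,
    hcA, hcB]
  ring

/-- The standard configuration. -/
def stdY (m N : ℕ) (r r' a b : ℝ) : Finset E3 :=
  open Classical in poles m ∪ (ring N (r : ℂ) a ∪ ring N (r' * om N) b)

theorem stdY_disj {N : ℕ} (hN : N ≠ 0) {r r' a b : ℝ} (hr : 0 < r) (hr' : 0 < r') :
    Disjoint (ring N (r : ℂ) a) (ring N (r' * om N) b) := by
  rw [Finset.disjoint_left]
  have hr0 : (r : ℂ) ≠ 0 := by exact_mod_cast hr.ne'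
  have hr0' : (r' : ℂ) * om N ≠ 0 := by
    apply mul_ne_zero
    · exact_mod_cast hr'.ne'
    · intro h
      have := norm_om N
      rw [h] at this
      simp at this
  intro x hx hx'
  rw [mem_ring hN hr0] at hx
  rw [mem_ring hN hr0', mul_pow, om_pow hN] at hx'
  have h1 : (r : ℂ) ^ N = (r' : ℂ) ^ N * -1 := by rw [← hx.1, ← hx'.1]
  have h2 : r ^ N = r' ^ N * -1 := by exact_mod_cast h1
  have h3 := pow_pos hr N
  have h4 := pow_pos hr' N
  linarith

theorem stdY_spec {m N : ℕ} (hm : m ≤ 2) (hN : N ≠ 0) {r r' a b : ℝ} (hr : 0 < r) (hr' : 0 < r')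
    (h1 : r ^ 2 + a ^ 2 = 1) (h2 : r' ^ 2 + b ^ 2 = 1) :
    IsConfig (2 * N + m) (stdY m N r r' a b) ∧ HasAxis N (stdY m N r r' a b) ∧
    energy (stdY m N r r' a b) = ep m + N * polePot m a + N * polePot m b +
      (Bk N / r / 2 + Bk N / r' / 2 + N * ∑ s ∈ range N, Gk r r' a b (om N * zt N ^ s).re) := by
  classical
  have hr0 : (r : ℂ) ≠ 0 := by exact_mod_cast hr.ne'
  have hr0' : (r' : ℂ) * om N ≠ 0 := by
    apply mul_ne_zero
    · exact_mod_cast hr'.ne'
    · intro h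
      have := norm_om N
      rw [h] at this
      simp at this
  have hnr : ‖(r : ℂ)‖ = r := by rw [Complex.norm_real, Real.norm_eq_abs, abs_of_pos hr]
  have hnr' : ‖(r' : ℂ) * om N‖ = r' := by
    rw [norm_mul, norm_om, mul_one, Complex.norm_real, Real.norm_eq_abs, abs_of_pos hr']
  have hd := stdY_disj (a := a) (b := b) hN hr hr'
  have hP1 := disjoint_poles_ring hN m hr0 a
  have hP2 := disjoint_poles_ring hN m hr0' b
  have hP : Disjoint (poles m) (ring N (r : ℂ) a ∪ ring N (r' * om N) b) := by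
    rw [Finset.disjoint_union_right]
    exact ⟨hP1, hP2⟩
  have e1 : ‖(r : ℂ)‖ ^ 2 + a ^ 2 = 1 := by rw [hnr]; exact h1
  have e2 : ‖(r' : ℂ) * om N‖ ^ 2 + b ^ 2 = 1 := by rw [hnr']; exact h2
  have hA : ∀ x ∈ ring N (r : ℂ) a, ‖x‖ = 1 ∧ x 2 = a := fun x hx =>
    ⟨norm_ring hN hr0 e1 hx, ((mem_ring hN hr0).1 hx).2⟩
  have hB : ∀ x ∈ ring N (r' * om N) b, ‖x‖ = 1 ∧ x 2 = b := fun x hx =>
    ⟨norm_ring hN hr0' e2 hx, ((mem_ring hN hr0').1 hx).2⟩
  refine ⟨⟨?_, ?_⟩, ?_, ?_⟩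
  · unfold stdY
    rw [Finset.card_union_of_disjoint hP, Finset.card_union_of_disjoint hd, card_poles hm,
      card_ring hN hr0, card_ring hN hr0']
    ring
  · intro x hx
    unfold stdY at hx
    rw [Finset.mem_union, Finset.mem_union] at hx
    rcases hx with hx | hx | hx
    · exact norm_poles hx
    · exact (hA x hx).1
    · exact (hB x hx).1
  · exact Inv0.hasAxis ((poles_inv0 N m).union ((ring_inv0 hN hr0 a).union (ring_inv0 hN hr0' b)))
  · unfold stdY
    rw [energy_two hN m hr0 hr0' hd, inter_poles_plane hA, inter_poles_plane hB,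
      card_ring hN hr0, card_ring hN hr0', hnr, hnr']
    have h3 : ∑ j ∈ range N, 1 / dist (pt (r : ℂ) a) (pt (zt N ^ j * (r' * om N)) b) =
        ∑ s ∈ range N, Gk r r' a b (om N * zt N ^ s).re := by
      refine Finset.sum_congr rfl fun j _ => ?_
      have e3 : ‖zt N ^ j * (r' * om N)‖ ^ 2 + b ^ 2 = 1 := by
        rw [norm_mul, norm_pow, norm_zt, one_pow, one_mul, hnr']
        exact h2
      rw [dist_sphere e1 e3, Gk]
      congr 3
      have e4 : zt N ^ j * (r' * om N) * (starRingEnd ℂ) (r : ℂ) =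
          ((r * r' : ℝ) : ℂ) * (om N * zt N ^ j) := by
        rw [Complex.conj_ofReal]
        push_cast
        ring
      rw [e4, Complex.re_ofReal_mul]
      ring
    rw [h3]
    ring

end

end Pool.Agent.TPL
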