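import Pool.Agent.Helper15.Thomson.Geom

/-!
Jensen's inequality for the arcs between the points of a finite subset of the circle.
-/

namespace Pool.Agent.TPL

open Finset Pool.Agent.Helper15.Thomson

/-- A finite subset of the circle is enumerated by an increasing sequence of angles. -/
theorem exists_angles {N : ℕ} (hN : 0 < N) {U : Finset ℂ} (hU : ∀ u ∈ U, ‖u‖ = 1)
    (hc : U.card = N) : ∃ t : ℕ → ℝ, StrictMono t ∧ (∀ n, t (n + N) = t n + 2 * Real.pi) ∧
      ∀ g : ℂ → ℝ, ∑ u ∈ U, g u = ∑ n ∈ range N, g (Complex.exp (t n * Complex.I)) := by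
  classical
  have hinj : Set.InjOn Complex.arg (U : Set ℂ) := by
    intro x hx y hy h
    exact Complex.ext_norm_arg (by rw [hU x hx, hU y hy]) h
  obtain ⟨Θ, hΘ⟩ : ∃ Θ, Θ = U.image Complex.arg := ⟨_, rfl⟩
  have hΘc : Θ.card = N := by rw [hΘ, Finset.card_image_of_injOn hinj, hc]
  obtain ⟨th, hth⟩ : ∃ th : Fin N ↪o ℝ, th = Θ.orderEmbOfFin hΘc := ⟨_, rfl⟩
  have hmem : ∀ i, th i ∈ Θ := fun i => by rw [hth]; exact Finset.orderEmbOfFin_mem _ _ _
  have hrange : ∀ i, -Real.pi < th i ∧ th i ≤ Real.pi := by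
    intro i
    have h1 := hmem i
    rw [hΘ, Finset.mem_image] at h1
    obtain ⟨u, _, hu⟩ := h1
    rw [← hu]
    exact Complex.arg_mem_Ioc u
  obtain ⟨t, ht⟩ : ∃ t : ℕ → ℝ, t = fun n =>
    th ⟨n % N, Nat.mod_lt _ hN⟩ + 2 * Real.pi * ((n / N : ℕ) : ℝ) := ⟨_, rfl⟩
  have hval : ∀ q r (hr : r < N), t (N * q + r) = th ⟨r, hr⟩ + 2 * Real.pi * q := by
    intro q r hr
    rw [ht]
    dsimp only
    have e1 : (N * q + r) % N = r := by rw [Nat.mul_add_mod, Nat.mod_eq_of_lt hr]
    have e2 : (N * q + r) / N = q := by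
      rw [Nat.mul_add_div hN, Nat.div_eq_of_lt hr, add_zero]
    rw [e2]
    have e3 : (⟨(N * q + r) % N, Nat.mod_lt _ hN⟩ : Fin N) = ⟨r, hr⟩ := Fin.ext e1
    rw [e3]
  refine ⟨t, strictMono_nat_of_lt_succ fun n => ?_, fun n => ?_, fun g => ?_⟩
  · obtain ⟨q, r, hr, hn⟩ : ∃ q r, r < N ∧ n = N * q + r :=
      ⟨n / N, n % N, Nat.mod_lt _ hN, (Nat.div_add_mod n N).symm⟩
    rw [hn]
    by_cases h : r + 1 < N
    · rw [hval q r hr, add_assoc, hval q (r + 1) h]
      have : th ⟨r, hr⟩ < th ⟨r + 1, h⟩ := th.strictMono (by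
        rw [Fin.lt_def]
        exact Nat.lt_succ_self r)
      linarith
    · have e : N * q + r + 1 = N * (q + 1) + 0 := by
        rw [mul_add, mul_one]
        omega
      rw [hval q r hr, e, hval (q + 1) 0 hN]
      have h1 := hrange ⟨r, hr⟩
      have h2 := hrange ⟨0, hN⟩
      push_cast
      linarith
  · obtain ⟨q, r, hr, hn⟩ : ∃ q r, r < N ∧ n = N * q + r :=
      ⟨n / N, n % N, Nat.mod_lt _ hN, (Nat.div_add_mod n N).symm⟩
    have e : n + N = N * (q + 1) + r := by
      rw [hn, mul_add, mul_one]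
      omega
    rw [e, hval (q + 1) r hr, hn, hval q r hr]
    push_cast
    ring
  · have h1 : ∑ u ∈ U, g u = ∑ x ∈ Θ, g (Complex.exp (x * Complex.I)) := by
      rw [hΘ, Finset.sum_image hinj]
      refine Finset.sum_congr rfl fun u hu => ?_
      congr 1
      have := Complex.norm_mul_exp_arg_mul_I u
      rw [hU u hu, Complex.ofReal_one, one_mul] at this
      exact this.symm
    rw [h1]
    have h2 : Θ = Finset.univ.image th := by
      rw [hth, Finset.image_orderEmbOfFin_univ]
    rw [h2, Finset.sum_image (fun x _ y _ h => th.injective h), Finset.sum_range]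
    refine Finset.sum_congr rfl fun i _ => ?_
    have h3 := hval 0 i.1 i.2
    rw [mul_zero, zero_add] at h3
    rw [h3]
    simp

/-- The sum of a periodic function over a period. -/
theorem sum_period {N : ℕ} {h : ℕ → ℝ} (hp : ∀ n, h (n + N) = h n) (i : ℕ) :
    ∑ s ∈ range N, h (i + s) = ∑ s ∈ range N, h s := by
  induction i with
  | zero => simp
  | succ i ih =>
    have h1 := Finset.sum_range_succ (fun s => h (i + s)) N
    have h2 := Finset.sum_range_succ' (fun s => h (i + s)) N
    rw [h2] at h1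
    rw [hp, add_zero] at h1
    rw [← ih]
    have h3 := add_right_cancel h1
    rw [← h3]
    refine Finset.sum_congr rfl fun s _ => ?_
    congr 1
    omega

theorem sum_shift_angles {N : ℕ} {t : ℕ → ℝ} (hp : ∀ n, t (n + N) = t n + 2 * Real.pi) (s : ℕ) :
    ∑ i ∈ range N, (t (i + s) - t i) = 2 * Real.pi * s := by
  induction s with
  | zero => simp
  | succ s ih =>
    have h1 := Finset.sum_range_succ (fun i => t (i + s)) N
    have h2 := Finset.sum_range_succ' (fun i => t (i + s)) N
    rw [h2] at h1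
    have h3 : t (N + s) = t s + 2 * Real.pi := by rw [add_comm]; exact hp s
    rw [h3, zero_add] at h1
    have h4 : ∑ i ∈ range N, (t (i + (s + 1)) - t i) =
        ∑ i ∈ range N, (t (i + s) - t i) + 2 * Real.pi := by
      rw [Finset.sum_sub_distrib, Finset.sum_sub_distrib]
      have h5 : ∑ i ∈ range N, t (i + (s + 1)) = ∑ i ∈ range N, t (i + 1 + s) :=
        Finset.sum_congr rfl fun i _ => by congr 1; omega
      rw [h5]
      linarith
    rw [h4, ih]
    push_cast
    ring

theorem re_exp_mul (a b : ℝ) :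
    (Complex.exp (a * Complex.I) * (starRingEnd ℂ) (Complex.exp (b * Complex.I))).re =
      Real.cos (b - a) := by
  rw [← Complex.exp_conj, ← Complex.exp_add]
  have e : (a : ℂ) * Complex.I + (starRingEnd ℂ) ((b : ℂ) * Complex.I) =
      ((a - b : ℝ) : ℂ) * Complex.I := by
    rw [map_mul, Complex.conj_ofReal, Complex.conj_I]
    push_cast
    ring
  rw [e, Complex.exp_ofReal_mul_I_re, ← Real.cos_neg]
  congr 1
  ring

/-- Jensen's inequality for the arcs. -/
theorem arcs_le {f : ℝ → ℝ}
    (hf : StrictConvexOn ℝ (Set.Ioo 0 (2 * Real.pi)) fun x => f (Real.cos x))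
    {N : ℕ} (hN : 2 ≤ N) {U : Finset ℂ} (hU : ∀ u ∈ U, ‖u‖ = 1) (hc : U.card = N) :
    N * ∑ s ∈ range N, f (Real.cos (2 * Real.pi * s / N)) ≤
      ∑ u ∈ U, ∑ v ∈ U, f ((u * (starRingEnd ℂ) v).re) ∧
    (∑ u ∈ U, ∑ v ∈ U, f ((u * (starRingEnd ℂ) v).re) ≤
        N * ∑ s ∈ range N, f (Real.cos (2 * Real.pi * s / N)) →
      ∀ u ∈ U, zt N * u ∈ U) := by
  classical
  have hN0 : 0 < N := by omega
  have hNr : (0 : ℝ) < N := by exact_mod_cast hN0
  obtain ⟨t, htm, htp, hts⟩ := exists_angles hN0 hU hc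
  obtain ⟨e, he⟩ : ∃ e : ℕ → ℂ, e = fun n => Complex.exp (t n * Complex.I) := ⟨_, rfl⟩
  have hep : ∀ n, e (n + N) = e n := by
    intro n
    rw [he]
    dsimp only
    rw [htp]
    push_cast
    rw [add_mul, Complex.exp_add, Complex.exp_two_pi_mul_I, mul_one]
  have hsum : ∑ u ∈ U, ∑ v ∈ U, f ((u * (starRingEnd ℂ) v).re) =
      ∑ s ∈ range N, ∑ i ∈ range N, f (Real.cos (t (i + s) - t i)) := by
    have hR : ∑ s ∈ range N, ∑ i ∈ range N, f (Real.cos (t (i + s) - t i)) =
        ∑ i ∈ range N, ∑ s ∈ range N, f (Real.cos (t (i + s) - t i)) := Finset.sum_comm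
    rw [hR, hts (fun u => ∑ v ∈ U, f ((u * (starRingEnd ℂ) v).re))]
    refine Finset.sum_congr rfl fun i _ => ?_
    rw [hts (fun v => f ((Complex.exp (t i * Complex.I) * (starRingEnd ℂ) v).re))]
    have h1 := sum_period (N := N) (h := fun n => f ((e i * (starRingEnd ℂ) (e n)).re))
      (fun n => by rw [hep]) i
    have h2 : ∀ n, f ((Complex.exp (t i * Complex.I) *
        (starRingEnd ℂ) (Complex.exp (t n * Complex.I))).re) =
        f ((e i * (starRingEnd ℂ) (e n)).re) := fun n => by rw [he]
    simp only [h2]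
    rw [← h1]
    refine Finset.sum_congr rfl fun s _ => ?_
    rw [he]
    dsimp only
    rw [re_exp_mul]
  -- the arcs
  have harc : ∀ s, 0 < s → s < N → ∀ i ∈ range N, t (i + s) - t i ∈ Set.Ioo 0 (2 * Real.pi) := by
    intro s hs hsN i _
    have h1 := htm (show i < i + s by omega)
    have h2 := htm (show i + s < i + N by omega)
    rw [htp] at h2
    exact ⟨by linarith, by linarith⟩
  have hw : ∑ _i ∈ range N, (1 / N : ℝ) = 1 := by
    rw [Finset.sum_const, Finset.card_range, nsmul_eq_mul]
    field_simp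
  have havg : ∀ s : ℕ, ∑ i ∈ range N, (1 / N : ℝ) • (t (i + s) - t i) = 2 * Real.pi * s / N := by
    intro s
    rw [← Finset.smul_sum, sum_shift_angles htp, smul_eq_mul]
    ring
  have hJ : ∀ s ∈ range N, N * f (Real.cos (2 * Real.pi * s / N)) ≤
      ∑ i ∈ range N, f (Real.cos (t (i + s) - t i)) := by
    intro s hs
    rw [Finset.mem_range] at hs
    rcases Nat.eq_zero_or_pos s with rfl | hs0
    · simp only [Nat.cast_zero, mul_zero, zero_div, add_zero, sub_self, Finset.sum_const,
        Finset.card_range, nsmul_eq_mul]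
      exact le_rfl
    · have h1 := hf.convexOn.map_sum_le (t := range N) (w := fun _ => (1 / N : ℝ))
        (p := fun i => t (i + s) - t i) (fun _ _ => by positivity) hw (harc s hs0 hs)
      rw [havg] at h1
      simp only [smul_eq_mul, ← Finset.mul_sum] at h1
      rw [one_div, ← div_eq_inv_mul, le_div_iff₀ hNr] at h1
      linarith
  rw [hsum, Finset.mul_sum]
  refine ⟨Finset.sum_le_sum hJ, fun hle => ?_⟩
  -- the equality case
  have h1 : ∑ i ∈ range N, f (Real.cos (t (i + 1) - t i)) ≤
      N * f (Real.cos (2 * Real.pi * (1 : ℕ) / N)) := by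
    by_contra hcon
    push Not at hcon
    have := Finset.sum_lt_sum hJ ⟨1, Finset.mem_range.2 (by omega), hcon⟩
    linarith
  have h2 : ∑ i ∈ range N, (1 / N : ℝ) • f (Real.cos (t (i + 1) - t i)) ≤
      f (Real.cos (∑ i ∈ range N, (1 / N : ℝ) • (t (i + 1) - t i))) := by
    rw [havg]
    simp only [smul_eq_mul, ← Finset.mul_sum]
    rw [one_div, ← div_eq_inv_mul, div_le_iff₀ hNr]
    linarith
  have h3 : ∀ i ∈ range N, ∀ j ∈ range N, t (i + 1) - t i = t (j + 1) - t j := by
    intro i hi j hj
    exact hf.eq_of_le_map_sum (t := range N) (w := fun _ => (1 / N : ℝ))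
      (p := fun i => t (i + 1) - t i) (fun _ _ => by positivity) hw (harc 1 one_pos (by omega))
      h2 hi hj
  have h4 : ∀ i ∈ range N, t (i + 1) - t i = 2 * Real.pi / N := by
    intro i hi
    have h5 := sum_shift_angles htp 1
    rw [Finset.sum_congr rfl (fun j hj => h3 j hj i hi), Finset.sum_const, Finset.card_range,
      nsmul_eq_mul] at h5
    push_cast at h5
    rw [eq_div_iff hNr.ne']
    linarith
  have hmemU : ∀ n, e n ∈ U := by
    have h5 : ∀ n < N, e n ∈ U := by
      intro n hn
      by_contra hcon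
      have h6 := hts (fun u => if u = e n then 1 else 0)
      have h7 : ∑ u ∈ U, (if u = e n then (1 : ℝ) else 0) = 0 := by
        refine Finset.sum_eq_zero fun u hu => ?_
        rw [if_neg]
        rintro rfl
        exact hcon hu
      have h8 : (1 : ℝ) ≤ ∑ m ∈ range N, (if Complex.exp (t m * Complex.I) = e n then 1 else 0) := by
        have h9 := Finset.single_le_sum
          (f := fun m => if Complex.exp (t m * Complex.I) = e n then (1 : ℝ) else 0)
          (fun m _ => by split_ifs <;> norm_num) (Finset.mem_range.2 hn)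
        refine le_trans (le_of_eq ?_) h9
        rw [he]
        simp
      rw [h6] at h7
      linarith
    intro n
    induction n using Nat.strong_induction_on with
    | _ n ih =>
      rcases Nat.lt_or_ge n N with h | h
      · exact h5 n h
      · have h6 := ih (n - N) (by omega)
        rw [← hep, Nat.sub_add_cancel h] at h6
        exact h6
  intro u hu
  -- `u` is one of the points
  obtain ⟨i, hi, hiu⟩ : ∃ i ∈ range N, e i = u := by
    by_contra hcon
    push Not at hcon
    have h6 := hts (fun v => if v = u then 1 else 0)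
    have h7 : ∑ m ∈ range N, (if Complex.exp (t m * Complex.I) = u then (1 : ℝ) else 0) = 0 := by
      refine Finset.sum_eq_zero fun m hm => ?_
      rw [if_neg]
      have := hcon m hm
      rw [he] at this
      exact this
    have h8 : (1 : ℝ) ≤ ∑ v ∈ U, (if v = u then 1 else 0) := by
      have h9 := Finset.single_le_sum (f := fun v => if v = u then (1 : ℝ) else 0)
        (fun m _ => by split_ifs <;> norm_num) hu
      refine le_trans (le_of_eq ?_) h9
      simp
    rw [h6] at h8
    linarith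
  have h6 : zt N * u = e (i + 1) := by
    rw [← hiu, he]
    dsimp only
    have h7 : t (i + 1) = 2 * Real.pi / N + t i := by
      have := h4 i hi
      linarith
    rw [h7, zt]
    push_cast
    rw [add_mul, Complex.exp_add]
  rw [h6]
  exact hmemU _

end Pool.Agent.TPL
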