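import Pool.Agent.TPL.Mix
import Pool.Agent.TPL.Jen
import Pool.Agent.TPL.Cvx
import Pool.Agent.Helper15.Thomson.OnePoleGood

/-!
The main inequality for two circles with the same number of points.
-/

namespace Pool.Agent.TPL

open Finset Pool.Agent.Helper15.Thomson

noncomputable section

theorem zt_re (N s : ℕ) : (zt N ^ s).re = Real.cos (2 * Real.pi * s / N) := by
  unfold zt
  rw [← Complex.exp_nat_mul]
  have e : (s : ℂ) * ((2 * Real.pi / N : ℝ) * Complex.I) =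
      ((2 * Real.pi * s / N : ℝ) : ℂ) * Complex.I := by
    push_cast
    ring
  rw [e, Complex.exp_ofReal_mul_I_re]

theorem zt_two_mul {N : ℕ} (hN : N ≠ 0) : zt (2 * N) = om N := by
  unfold zt om
  congr 2
  have : (N : ℝ) ≠ 0 := by exact_mod_cast hN
  push_cast
  field_simp

theorem om_sq {N : ℕ} : om N ^ 2 = zt N := by
  unfold zt om
  rw [← Complex.exp_nat_mul]
  congr 1
  push_cast
  ring

theorem sum_even_odd (N : ℕ) (g : ℕ → ℝ) :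
    ∑ j ∈ range (2 * N), g j = ∑ s ∈ range N, g (2 * s) + ∑ s ∈ range N, g (2 * s + 1) := by
  induction N with
  | zero => simp
  | succ N ih =>
    have e : 2 * (N + 1) = 2 * N + 1 + 1 := by ring
    rw [e, Finset.sum_range_succ, Finset.sum_range_succ, ih, Finset.sum_range_succ,
      Finset.sum_range_succ]
    ring

theorem sum_two {N : ℕ} (hN : N ≠ 0) (G : ℝ → ℝ) :
    ∑ j ∈ range (2 * N), G (zt (2 * N) ^ j).re = ∑ s ∈ range N, G (zt N ^ s).re +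
      ∑ s ∈ range N, G (om N * zt N ^ s).re := by
  rw [sum_even_odd, zt_two_mul hN]
  congr 1
  · refine Finset.sum_congr rfl fun s _ => ?_
    rw [pow_mul, om_sq]
  · refine Finset.sum_congr rfl fun s _ => ?_
    rw [pow_succ, pow_mul, om_sq, mul_comm]

theorem norm_one_sub {w : ℂ} (hw : ‖w‖ = 1) : ‖1 - w‖ = Real.sqrt (2 - 2 * w.re) := by
  symm
  rw [Real.sqrt_eq_iff_mul_self_eq _ (norm_nonneg _), ← sq, Complex.sq_norm,
    Complex.normSq_apply]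
  · have := Complex.sq_norm w
    rw [hw, Complex.normSq_apply] at this
    simp only [Complex.sub_re, Complex.one_re, Complex.sub_im, Complex.one_im]
    linarith
  · have := Complex.re_le_norm w
    rw [hw] at this
    linarith

theorem Bk_eq (N : ℕ) :
    Bk N = N * ∑ s ∈ range N, 1 / Real.sqrt (2 - 2 * (zt N ^ s).re) := by
  unfold Bk
  congr 1
  refine Finset.sum_congr rfl fun s _ => ?_
  rw [norm_one_sub (by rw [norm_pow, norm_zt, one_pow])]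

/-- The condition for the self energies. -/
theorem cnd {r r' h h' : ℝ} (hr : 0 < r) (hr' : 0 < r') (h1 : r ^ 2 + h ^ 2 = 1)
    (h2 : r' ^ 2 + h' ^ 2 = 1) (hh : h * h' ≤ 0) :
    Cnd (1 / r) (2 - 2 * h * h' - 2 * (r * r')) (r * r') := by
  unfold Cnd
  have e : 2 - 2 * h * h' - 2 * (r * r') + r * r' * 2 ^ 2 = 2 - 2 * h * h' + 2 * (r * r') := by
    ring
  rw [e]
  have hr1 : r ≤ 1 := by nlinarith [sq_nonneg h]
  have hr1' : r' ≤ 1 := by nlinarith [sq_nonneg h']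
  have hp : 0 < r * r' := mul_pos hr hr'
  have hp1 : r * r' ≤ 1 := by nlinarith
  obtain ⟨S, hS⟩ : ∃ S, S = 2 - 2 * h * h' + 2 * (r * r') := ⟨_, rfl⟩
  rw [← hS]
  have hS1 : 2 * (1 + r * r') ≤ S := by rw [hS]; nlinarith
  have hS0 : 0 < S := by linarith
  have hs := Real.sqrt_pos.2 hS0
  have hs2 := Real.sq_sqrt hS0.le
  rw [div_pow, ← mul_div_assoc, div_le_div_iff₀ (by positivity) hr]
  apply (pow_le_pow_iff_left₀ (by positivity) (by positivity) two_ne_zero).1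
  have e2 : (1 * Real.sqrt S ^ 3) ^ 2 = S ^ 3 := by
    calc (1 * Real.sqrt S ^ 3) ^ 2 = (Real.sqrt S ^ 2) ^ 3 := by ring
      _ = S ^ 3 := by rw [hs2]
  rw [e2]
  have h3 : (2 * (1 + r * r')) ^ 3 ≤ S ^ 3 := pow_le_pow_left₀ (by positivity) hS1 3
  refine le_trans ?_ h3
  have h4 : (r * r' * 2 ^ 3 * r) ^ 2 = 64 * (r * r') ^ 2 * r ^ 2 := by ring
  rw [h4]
  have h5 : r ^ 2 ≤ 1 := by nlinarith
  obtain ⟨p, hpp⟩ : ∃ p, p = r * r' := ⟨_, rfl⟩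
  rw [← hpp] at hp hp1 ⊢
  have h6 : 64 * p ^ 2 * r ^ 2 ≤ 64 * p ^ 2 := by nlinarith [sq_nonneg p]
  have h7 : 0 ≤ (1 - p) * (1 + 4 * p - p ^ 2) := by
    apply mul_nonneg (by linarith)
    nlinarith
  nlinarith

/-- The mutual kernel. -/
def Gk (r r' h h' x : ℝ) : ℝ := 1 / Real.sqrt (2 - 2 * h * h' - 2 * (r * r') * x)

/-- The energy of two circles. -/
def Tk (r r' h h' : ℝ) (U V : Finset ℂ) : ℝ :=
  (∑ u ∈ U, ∑ v ∈ U, 1 / r / Real.sqrt (2 - 2 * (u * (starRingEnd ℂ) v).re)) / 2 +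
  (∑ u ∈ V, ∑ v ∈ V, 1 / r' / Real.sqrt (2 - 2 * (u * (starRingEnd ℂ) v).re)) / 2 +
  ∑ u ∈ U, ∑ v ∈ V, Gk r r' h h' (u * (starRingEnd ℂ) v).re

/-- The self energy bound. -/
theorem self_le {r r' h h' : ℝ} (hr : 0 < r) (hr' : 0 < r') (h1 : r ^ 2 + h ^ 2 = 1)
    (h2 : r' ^ 2 + h' ^ 2 = 1) (hh : h * h' ≤ 0) (hδ : 0 < 2 - 2 * h * h' - 2 * (r * r'))
    {N : ℕ} (hN : 2 ≤ N) {U : Finset ℂ} (hU : ∀ u ∈ U, ‖u‖ = 1) (hc : U.card = N) :
    Bk N / r - N * ∑ s ∈ range N, Gk r r' h h' (zt N ^ s).re ≤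
      ∑ u ∈ U, ∑ v ∈ U, 1 / r / Real.sqrt (2 - 2 * (u * (starRingEnd ℂ) v).re) -
      ∑ u ∈ U, ∑ v ∈ U, Gk r r' h h' (u * (starRingEnd ℂ) v).re ∧
    (∑ u ∈ U, ∑ v ∈ U, 1 / r / Real.sqrt (2 - 2 * (u * (starRingEnd ℂ) v).re) -
      ∑ u ∈ U, ∑ v ∈ U, Gk r r' h h' (u * (starRingEnd ℂ) v).re ≤
      Bk N / r - N * ∑ s ∈ range N, Gk r r' h h' (zt N ^ s).re →
      ∀ u ∈ U, zt N * u ∈ U) := by
  have hκ : 0 < r * r' := mul_pos hr hr'
  have hf := ker_convex hδ hκ (cnd hr hr' h1 h2 hh)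
  obtain ⟨f, hfd⟩ : ∃ f : ℝ → ℝ, f = fun x => 1 / r / Real.sqrt (2 - 2 * x) -
      1 / Real.sqrt (2 - 2 * h * h' - 2 * (r * r') + r * r' * (2 - 2 * x)) := ⟨_, rfl⟩
  have hfG : ∀ x, f x = 1 / r / Real.sqrt (2 - 2 * x) - Gk r r' h h' x := by
    intro x
    rw [hfd, Gk]
    dsimp only
    congr 3
    ring
  have hf' : StrictConvexOn ℝ (Set.Ioo 0 (2 * Real.pi)) fun x => f (Real.cos x) := by
    rw [hfd]
    exact hf
  have key := arcs_le hf' hN hU hc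
  have e1 : ∑ u ∈ U, ∑ v ∈ U, f ((u * (starRingEnd ℂ) v).re) =
      ∑ u ∈ U, ∑ v ∈ U, 1 / r / Real.sqrt (2 - 2 * (u * (starRingEnd ℂ) v).re) -
      ∑ u ∈ U, ∑ v ∈ U, Gk r r' h h' (u * (starRingEnd ℂ) v).re := by
    rw [← Finset.sum_sub_distrib]
    refine Finset.sum_congr rfl fun u _ => ?_
    rw [← Finset.sum_sub_distrib]
    exact Finset.sum_congr rfl fun v _ => hfG _
  have e2 : N * ∑ s ∈ range N, f (Real.cos (2 * Real.pi * s / N)) =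
      Bk N / r - N * ∑ s ∈ range N, Gk r r' h h' (zt N ^ s).re := by
    have e3 : ∑ s ∈ range N, f (Real.cos (2 * Real.pi * s / N)) =
        (∑ s ∈ range N, 1 / Real.sqrt (2 - 2 * (zt N ^ s).re)) / r -
        ∑ s ∈ range N, Gk r r' h h' (zt N ^ s).re := by
      rw [Finset.sum_div, ← Finset.sum_sub_distrib]
      refine Finset.sum_congr rfl fun s _ => ?_
      rw [← zt_re, hfG]
      congr 1
      rw [div_div, div_div, mul_comm]
    rw [e3, Bk_eq]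
    ring
  rw [e1, e2] at key
  exact key

/-- The main inequality. -/
theorem main_le {r r' h h' : ℝ} (hr : 0 < r) (hr' : 0 < r') (h1 : r ^ 2 + h ^ 2 = 1)
    (h2 : r' ^ 2 + h' ^ 2 = 1) (hh : h * h' ≤ 0) (hδ : 0 < 2 - 2 * h * h' - 2 * (r * r'))
    {N : ℕ} (hN : 2 ≤ N) {U V : Finset ℂ} (hU : ∀ u ∈ U, ‖u‖ = 1) (hV : ∀ u ∈ V, ‖u‖ = 1)
    (hcU : U.card = N) (hcV : V.card = N) :
    Bk N / r / 2 + Bk N / r' / 2 + N * ∑ s ∈ range N, Gk r r' h h' (om N * zt N ^ s).re ≤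
      Tk r r' h h' U V ∧
    (Tk r r' h h' U V ≤
      Bk N / r / 2 + Bk N / r' / 2 + N * ∑ s ∈ range N, Gk r r' h h' (om N * zt N ^ s).re →
      (∀ u ∈ U, zt N * u ∈ U) ∧ ∀ v ∈ V, zt N * v ∈ V) := by
  have hN0 : N ≠ 0 := by omega
  have hA := self_le hr hr' h1 h2 hh hδ hN hU hcU
  have hB := self_le hr' hr h2 h1 (by rw [mul_comm]; exact hh)
    (by rw [mul_comm r' r]; linarith) hN hV hcV
  have hG : ∀ x, Gk r' r h' h x = Gk r r' h h' x := by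
    intro x
    unfold Gk
    congr 2
    ring
  simp only [hG] at hB
  -- the union
  have hcard : Fintype.card (U ⊕ V) = 2 * N := by
    rw [Fintype.card_sum, Fintype.card_coe, Fintype.card_coe, hcU, hcV]
    ring
  have hζ : IsPrimitiveRoot (zt (2 * N)) (Fintype.card (U ⊕ V)) := by
    rw [hcard]
    exact zt_prim (by omega)
  have hAB := circ_sqrt_le (a := 2 - 2 * h * h') (b := 2 * (r * r')) (by positivity) (by linarith)
    (by rw [hcard]; omega) hζ (Sum.elim (fun u : U => (u : ℂ)) (fun v : V => (v : ℂ))) (by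
      rintro (u | v)
      · exact hU u u.2
      · exact hV v v.2)
  rw [hcard] at hAB
  have e1 : ∑ j ∈ range (2 * N), 1 / Real.sqrt (2 - 2 * h * h' -
      2 * (r * r') * (zt (2 * N) ^ j).re) = ∑ s ∈ range N, Gk r r' h h' (zt N ^ s).re +
      ∑ s ∈ range N, Gk r r' h h' (om N * zt N ^ s).re := sum_two hN0 (Gk r r' h h')
  rw [e1] at hAB
  have e2 : ∑ i : U ⊕ V, ∑ j : U ⊕ V, 1 / Real.sqrt (2 - 2 * h * h' - 2 * (r * r') *
      (Sum.elim (fun u : U => (u : ℂ)) (fun v : V => (v : ℂ)) i *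
      (starRingEnd ℂ) (Sum.elim (fun u : U => (u : ℂ)) (fun v : V => (v : ℂ)) j)).re) =
      (∑ u ∈ U, ∑ v ∈ U, Gk r r' h h' (u * (starRingEnd ℂ) v).re +
        ∑ u ∈ U, ∑ v ∈ V, Gk r r' h h' (u * (starRingEnd ℂ) v).re) +
      (∑ u ∈ U, ∑ v ∈ V, Gk r r' h h' (u * (starRingEnd ℂ) v).re +
        ∑ u ∈ V, ∑ v ∈ V, Gk r r' h h' (u * (starRingEnd ℂ) v).re) := by
    rw [Fintype.sum_sum_type]
    simp only [Fintype.sum_sum_type, Sum.elim_inl, Sum.elim_inr, Finset.sum_add_distrib]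
    have c1 : ∀ (S T : Finset ℂ), ∑ x : S, ∑ y : T, 1 / Real.sqrt (2 - 2 * h * h' -
        2 * (r * r') * ((x : ℂ) * (starRingEnd ℂ) (y : ℂ)).re) =
        ∑ u ∈ S, ∑ v ∈ T, Gk r r' h h' (u * (starRingEnd ℂ) v).re := by
      intro S T
      rw [← Finset.sum_coe_sort S]
      refine Finset.sum_congr rfl fun x _ => ?_
      rw [← Finset.sum_coe_sort T]
      rfl
    rw [c1, c1, c1, c1]
    have c2 : ∑ u ∈ V, ∑ v ∈ U, Gk r r' h h' (u * (starRingEnd ℂ) v).re =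
        ∑ u ∈ U, ∑ v ∈ V, Gk r r' h h' (u * (starRingEnd ℂ) v).re := by
      rw [Finset.sum_comm]
      refine Finset.sum_congr rfl fun u _ => Finset.sum_congr rfl fun v _ => ?_
      congr 1
      rw [← Complex.conj_re, map_mul, Complex.conj_conj, mul_comm]
    rw [c2]
  rw [e2] at hAB
  push_cast at hAB
  obtain ⟨x1, hx1⟩ : ∃ x, x = ∑ u ∈ U, ∑ v ∈ U, Gk r r' h h' (u * (starRingEnd ℂ) v).re :=
    ⟨_, rfl⟩
  obtain ⟨x2, hx2⟩ : ∃ x, x = ∑ u ∈ U, ∑ v ∈ V, Gk r r' h h' (u * (starRingEnd ℂ) v).re :=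
    ⟨_, rfl⟩
  obtain ⟨x3, hx3⟩ : ∃ x, x = ∑ u ∈ V, ∑ v ∈ V, Gk r r' h h' (u * (starRingEnd ℂ) v).re :=
    ⟨_, rfl⟩
  obtain ⟨y1, hy1⟩ : ∃ x, x = ∑ u ∈ U, ∑ v ∈ U,
    1 / r / Real.sqrt (2 - 2 * (u * (starRingEnd ℂ) v).re) := ⟨_, rfl⟩
  obtain ⟨y2, hy2⟩ : ∃ x, x = ∑ u ∈ V, ∑ v ∈ V,
    1 / r' / Real.sqrt (2 - 2 * (u * (starRingEnd ℂ) v).re) := ⟨_, rfl⟩
  obtain ⟨g1, hg1⟩ : ∃ x, x = ∑ s ∈ range N, Gk r r' h h' (zt N ^ s).re := ⟨_, rfl⟩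
  obtain ⟨g2, hg2⟩ : ∃ x, x = ∑ s ∈ range N, Gk r r' h h' (om N * zt N ^ s).re := ⟨_, rfl⟩
  unfold Tk
  rw [← hx1, ← hy1, ← hg1] at hA
  rw [← hx3, ← hy2, ← hg1] at hB
  rw [← hx1, ← hx2, ← hx3, ← hg1, ← hg2] at hAB
  rw [← hx2, ← hy1, ← hy2, ← hg2]
  refine ⟨by linarith [hA.1, hB.1], fun hle => ⟨hA.2 (by linarith [hA.1, hB.1]),
    hB.2 (by linarith [hA.1, hB.1])⟩⟩

end

end Pool.Agent.TPL
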