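import Pool.Agent.TPL.Circ
import Pool.Agent.Helper15.Thomson.Twist

/-!
Regular polygons minimise the energy with the kernel `1 / sqrt (a - b cos θ)`, `0 < b < a`.
-/

namespace Pool.Agent.TPL

open Finset MeasureTheory Pool.Agent.Helper15.Thomson

theorem circ_sqrt_le {a b : ℝ} (hb : 0 < b) (hab : b < a) {ι : Type} [Fintype ι]
    (hM : 0 < Fintype.card ι) {ζ : ℂ} (hζ : IsPrimitiveRoot ζ (Fintype.card ι)) (z : ι → ℂ)
    (hz : ∀ i, ‖z i‖ = 1) :
    Fintype.card ι * ∑ j ∈ range (Fintype.card ι), 1 / Real.sqrt (a - b * (ζ ^ j).re) ≤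
      ∑ i, ∑ j, 1 / Real.sqrt (a - b * (z i * (starRingEnd ℂ) (z j)).re) := by
  have hn : ‖ζ‖ = 1 := hζ.norm'_eq_one hM.ne'
  have h1 : ∀ i j, ‖z i * (starRingEnd ℂ) (z j)‖ = 1 := by
    intro i j
    rw [norm_mul, Complex.norm_conj, hz, hz, one_mul]
  have hpos : ∀ w : ℂ, ‖w‖ = 1 → 0 < a - b * w.re := by
    intro w hw
    have : w.re ≤ 1 := by
      rw [← hw]
      exact Complex.re_le_norm w
    nlinarith
  have hint : ∀ w : ℂ, ‖w‖ = 1 → Integrable (fun s : ℝ => 1 / (a - b * w.re + s ^ 2)) ∧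
      1 / Real.sqrt (a - b * w.re) = Real.pi⁻¹ * ∫ s : ℝ, 1 / (a - b * w.re + s ^ 2) := by
    intro w hw
    obtain ⟨h2, h3⟩ := integral_inv (hpos w hw)
    refine ⟨h2, ?_⟩
    rw [h3]
    have := Real.pi_pos.ne'
    field_simp
  have hζj : ∀ j, ‖ζ ^ j‖ = 1 := fun j => by rw [norm_pow, hn, one_pow]
  have hiL : Integrable (fun s : ℝ => ∑ j ∈ range (Fintype.card ι),
      1 / (a - b * (ζ ^ j).re + s ^ 2)) := integrable_finsetSum _ fun j _ => (hint _ (hζj j)).1
  have hL : ∑ j ∈ range (Fintype.card ι), 1 / Real.sqrt (a - b * (ζ ^ j).re) =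
      Real.pi⁻¹ * ∫ s : ℝ, ∑ j ∈ range (Fintype.card ι), 1 / (a - b * (ζ ^ j).re + s ^ 2) := by
    rw [integral_finsetSum _ fun j _ => (hint _ (hζj j)).1, Finset.mul_sum]
    exact Finset.sum_congr rfl fun j _ => (hint _ (hζj j)).2
  have hiR : Integrable (fun s : ℝ => ∑ i, ∑ j,
      1 / (a - b * (z i * (starRingEnd ℂ) (z j)).re + s ^ 2)) :=
    integrable_finsetSum _ fun i _ => integrable_finsetSum _ fun j _ => (hint _ (h1 i j)).1
  have hR : ∑ i, ∑ j, 1 / Real.sqrt (a - b * (z i * (starRingEnd ℂ) (z j)).re) =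
      Real.pi⁻¹ * ∫ s : ℝ, ∑ i, ∑ j,
        1 / (a - b * (z i * (starRingEnd ℂ) (z j)).re + s ^ 2) := by
    rw [integral_finsetSum _ fun i _ => integrable_finsetSum _ fun j _ => (hint _ (h1 i j)).1,
      Finset.mul_sum]
    refine Finset.sum_congr rfl fun i _ => ?_
    rw [integral_finsetSum _ fun j _ => (hint _ (h1 i j)).1, Finset.mul_sum]
    exact Finset.sum_congr rfl fun j _ => (hint _ (h1 i j)).2
  rw [hL, hR]
  have hpi : 0 ≤ Real.pi⁻¹ := (inv_pos.2 Real.pi_pos).le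
  calc (Fintype.card ι : ℝ) * (Real.pi⁻¹ *
      ∫ s : ℝ, ∑ j ∈ range (Fintype.card ι), 1 / (a - b * (ζ ^ j).re + s ^ 2))
      = Real.pi⁻¹ * ∫ s : ℝ, (Fintype.card ι : ℝ) *
        ∑ j ∈ range (Fintype.card ι), 1 / (a - b * (ζ ^ j).re + s ^ 2) := by
        rw [integral_const_mul]
        ring
    _ ≤ _ := by
        apply mul_le_mul_of_nonneg_left _ hpi
        apply integral_mono (hiL.const_mul _) hiR
        intro s
        dsimp only
        have ha : 1 < (a + s ^ 2) / b := by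
          rw [one_lt_div hb]
          nlinarith [sq_nonneg s]
        have h2 := circ_le ha hM hζ z hz
        have h3 : ∀ x : ℝ, 1 / (a - b * x + s ^ 2) = b⁻¹ * (1 / ((a + s ^ 2) / b - x)) := by
          intro x
          have e : a - b * x + s ^ 2 = b * ((a + s ^ 2) / b - x) := by
            field_simp
            ring
          rw [e, one_div, mul_inv, one_div]
        simp only [h3, ← Finset.mul_sum]
        calc (Fintype.card ι : ℝ) * (b⁻¹ * ∑ j ∈ range (Fintype.card ι),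
            1 / ((a + s ^ 2) / b - (ζ ^ j).re)) = b⁻¹ * (Fintype.card ι *
            ∑ j ∈ range (Fintype.card ι), 1 / ((a + s ^ 2) / b - (ζ ^ j).re)) := by ring
          _ ≤ _ := mul_le_mul_of_nonneg_left h2 (inv_pos.2 hb).le

end Pool.Agent.TPL
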