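import Pool.Agent.TPL.Geo

/-!
Configurations with the same number of points in two parallel planes.
-/

namespace Pool.Agent.TPL

open Finset Pool.Agent.Helper15.Thomson

noncomputable section

/-- `X` is a configuration of `2 N + m` points; `N` of them lie in the plane `⟨x, e⟩ = a`, another
`N` of them in the plane `⟨x, e⟩ = b`, and the remaining `m` points are among `e` and `-e`. -/
def TwoPlanes (N m : ℕ) (X : Finset E3) : Prop :=
  IsConfig (2 * N + m) X ∧ ∃ e : E3, ‖e‖ = 1 ∧ ∃ (a b : ℝ) (A B : Finset E3), A ⊆ X ∧ B ⊆ X ∧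
    Disjoint A B ∧ A.card = N ∧ B.card = N ∧ (∀ x ∈ A, inner ℝ x e = a) ∧
    (∀ x ∈ B, inner ℝ x e = b) ∧ ∀ x ∈ X, x ∉ A → x ∉ B → x = e ∨ x = -e

/-- `X` minimises the Coulomb energy in this class. -/
def IsMinTwo (N m : ℕ) (X : Finset E3) : Prop :=
  TwoPlanes N m X ∧ ∀ Y, TwoPlanes N m Y → energy X ≤ energy Y

theorem exists_radius {N : ℕ} (hN : 2 ≤ N) {A : Finset E3} {a : ℝ}
    (hA : ∀ x ∈ A, ‖x‖ = 1 ∧ x 2 = a) (hc : A.card = N) : ∃ r, 0 < r ∧ r ^ 2 + a ^ 2 = 1 := by
  have ha : a ^ 2 < 1 := by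
    by_contra hcon
    push Not at hcon
    have h1 : A.card ≤ 1 := by
      rw [Finset.card_le_one]
      have h2 : ∀ x ∈ A, x = pt 0 a := by
        intro x hx
        obtain ⟨h3, h4⟩ := hA x hx
        rw [← pt_hz x, norm_pt_eq_one, h4] at h3
        have h5 : ‖hz x‖ ^ 2 ≤ 0 := by linarith
        have h6 : hz x = 0 := by
          rw [← norm_eq_zero]
          have h7 : ‖hz x‖ ^ 2 = 0 := le_antisymm h5 (sq_nonneg _)
          exact pow_eq_zero_iff two_ne_zero |>.1 h7
        rw [← pt_hz x, h6, h4]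
      intro x hx y hy
      rw [h2 x hx, h2 y hy]
    omega
  refine ⟨Real.sqrt (1 - a ^ 2), Real.sqrt_pos.2 (by linarith), ?_⟩
  rw [Real.sq_sqrt (by linarith)]
  ring

theorem inv0_of_dirs {N : ℕ} {r a : ℝ} (hr : 0 < r) {A : Finset E3} (hA : ∀ x ∈ A, x 2 = a)
    (h : ∀ u ∈ dirs r A, zt N * u ∈ dirs r A) : Inv0 N A := by
  classical
  rw [inv0_iff]
  intro w t hx
  have hr0 : (r : ℂ) ≠ 0 := by exact_mod_cast hr.ne'
  have ht : t = a := by
    have := hA _ hx
    rwa [pt_two] at this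
  have h1 : w / r ∈ dirs r A := by
    unfold dirs
    rw [Finset.mem_image]
    exact ⟨_, hx, by rw [hz_pt]⟩
  have h2 := h _ h1
  unfold dirs at h2
  rw [Finset.mem_image] at h2
  obtain ⟨y, hy, hyu⟩ := h2
  have h3 : hz y = zt N * w := by
    field_simp at hyu
    exact hyu
  rw [← h3, ht, ← hA y hy, pt_hz]
  exact hy

/-- The case of the equator. -/
theorem equator_le {N : ℕ} (hN : 2 ≤ N) {U V : Finset ℂ} (hU : ∀ u ∈ U, ‖u‖ = 1)
    (hV : ∀ u ∈ V, ‖u‖ = 1) (hcU : U.card = N) (hcV : V.card = N) (hd : Disjoint U V) :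
    Bk N / 1 / 2 + Bk N / 1 / 2 + N * ∑ s ∈ range N, Gk 1 1 0 0 (om N * zt N ^ s).re ≤
      Tk 1 1 0 0 U V ∧
    (Tk 1 1 0 0 U V ≤
      Bk N / 1 / 2 + Bk N / 1 / 2 + N * ∑ s ∈ range N, Gk 1 1 0 0 (om N * zt N ^ s).re →
      ∀ w ∈ (open Classical in U ∪ V), zt N * w ∈ (open Classical in U ∪ V)) := by
  classical
  have hN0 : N ≠ 0 := by omega
  obtain ⟨f, hf⟩ : ∃ f : ℝ → ℝ, f = fun x => 1 / Real.sqrt (2 - 2 * x) := ⟨_, rfl⟩
  have hcv : StrictConvexOn ℝ (Set.Ioo 0 (2 * Real.pi)) fun x => f (Real.cos x) := by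
    rw [hf]
    exact ker_convex0
  have hG : ∀ x, Gk 1 1 0 0 x = f x := by
    intro x
    rw [hf, Gk]
    dsimp only
    congr 2
    ring
  have hW : ∀ w ∈ U ∪ V, ‖w‖ = 1 := by
    intro w hw
    rw [Finset.mem_union] at hw
    exact hw.elim (hU w) (hV w)
  have hcW : (U ∪ V).card = 2 * N := by
    rw [Finset.card_union_of_disjoint hd, hcU, hcV]
    ring
  have key := arcs_le hcv (by omega) hW hcW
  have e1 : ∑ s ∈ range (2 * N), f (Real.cos (2 * Real.pi * s / (2 * N : ℕ))) =
      ∑ s ∈ range N, f (zt N ^ s).re + ∑ s ∈ range N, f (om N * zt N ^ s).re := by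
    rw [← sum_two hN0 f]
    refine Finset.sum_congr rfl fun s _ => ?_
    rw [zt_re]
  have e2 : Bk N = N * ∑ s ∈ range N, f (zt N ^ s).re := by
    rw [Bk_eq, hf]
  have e3 : ∑ u ∈ U ∪ V, ∑ v ∈ U ∪ V, f ((u * (starRingEnd ℂ) v).re) =
      2 * Tk 1 1 0 0 U V := by
    rw [Finset.sum_union hd]
    simp only [Finset.sum_union hd, Finset.sum_add_distrib]
    have c2 : ∑ u ∈ V, ∑ v ∈ U, f (u * (starRingEnd ℂ) v).re =
        ∑ u ∈ U, ∑ v ∈ V, f (u * (starRingEnd ℂ) v).re := by
      rw [Finset.sum_comm]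
      refine Finset.sum_congr rfl fun u _ => Finset.sum_congr rfl fun v _ => ?_
      congr 1
      rw [← Complex.conj_re, map_mul, Complex.conj_conj, mul_comm]
    have c3 : ∀ S : Finset ℂ, ∑ u ∈ S, ∑ v ∈ S,
        1 / 1 / Real.sqrt (2 - 2 * (u * (starRingEnd ℂ) v).re) =
        ∑ u ∈ S, ∑ v ∈ S, f (u * (starRingEnd ℂ) v).re := by
      intro S
      refine Finset.sum_congr rfl fun u _ => Finset.sum_congr rfl fun v _ => ?_
      rw [hf, div_one]
    rw [c2]
    unfold Tk
    simp only [hG]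
    rw [c3, c3]
    ring
  rw [e1, e3] at key
  push_cast at key
  simp only [hG, div_one]
  refine ⟨by rw [e2]; linarith [key.1], fun hle => ?_⟩
  rw [e2] at hle
  have h1 := key.2 (by linarith)
  intro w hw
  have h2 := h1 _ (h1 w hw)
  rw [← mul_assoc, ← pow_two, zt_two_mul hN0, om_sq] at h2
  exact h2

theorem polePot_neg {m : ℕ} (hm : m = 0 ∨ m = 2) (a : ℝ) : polePot m (-a) = polePot m a := by
  classical
  unfold polePot
  rcases hm with rfl | rfl
  · rw [poles_zero, Finset.sum_empty, Finset.sum_empty]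
  · have e : poles 2 = {pt 0 1, pt 0 (-1)} := by
      rw [poles_two]
    rw [e, Finset.sum_pair pole_ne, Finset.sum_pair pole_ne, pt_two, pt_two, add_comm]
    congr 3 <;> ring_nf

/-- Moving the second plane to the other hemisphere decreases the energy. -/
theorem flip_lt {r r' a b : ℝ} (hab : 0 < a * b) {U V : Finset ℂ}
    (hne : U.Nonempty) (hne' : V.Nonempty)
    (hpos : ∀ u ∈ U, ∀ v ∈ V,
      0 < 2 - 2 * a * b - 2 * (r * r') * (u * (starRingEnd ℂ) v).re) :
    Tk r r' a (-b) U V < Tk r r' a b U V := by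
  unfold Tk
  have h1 : ∑ u ∈ U, ∑ v ∈ V, Gk r r' a (-b) (u * (starRingEnd ℂ) v).re <
      ∑ u ∈ U, ∑ v ∈ V, Gk r r' a b (u * (starRingEnd ℂ) v).re := by
    refine Finset.sum_lt_sum_of_nonempty hne fun u hu => ?_
    refine Finset.sum_lt_sum_of_nonempty hne' fun v hv => ?_
    unfold Gk
    apply one_div_lt_one_div_of_lt (Real.sqrt_pos.2 (hpos u hu v hv))
    apply Real.sqrt_lt_sqrt (hpos u hu v hv).le
    nlinarith
  linarith

open Classical in
/-- The comparison with the staggered regular polygons. -/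
theorem key_le {N m : ℕ} (hN : 3 ≤ N) (hm : m = 0 ∨ m = 2) {a b : ℝ} {A B : Finset E3}
    (hA : ∀ x ∈ A, ‖x‖ = 1 ∧ x 2 = a) (hB : ∀ x ∈ B, ‖x‖ = 1 ∧ x 2 = b) (hAB : Disjoint A B)
    (hP : Disjoint (poles m) (A ∪ B)) (hcA : A.card = N) (hcB : B.card = N) :
    ∃ Y, IsConfig (2 * N + m) Y ∧ HasAxis N Y ∧ energy Y ≤ energy (poles m ∪ (A ∪ B)) ∧
      (energy (poles m ∪ (A ∪ B)) ≤ energy Y → HasAxis N (poles m ∪ (A ∪ B))) := by
  have hN0 : N ≠ 0 := by omega
  have hm2 : m ≤ 2 := by omega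
  obtain ⟨r, hr, h1⟩ := exists_radius (by omega) hA hcA
  obtain ⟨r', hr', h2⟩ := exists_radius (by omega) hB hcB
  have hE := energy_planes hr hr' h1 h2 hA hB hAB hP hcA hcB
  have hUn := norm_dirs hr h1 hA
  have hVn := norm_dirs hr' h2 hB
  have hcU : (dirs r A).card = N := by rw [card_dirs hr fun x hx => (hA x hx).2, hcA]
  have hcV : (dirs r' B).card = N := by rw [card_dirs hr' fun x hx => (hB x hx).2, hcB]
  rcases le_or_gt (a * b) 0 with hab | hab
  · have hsum : 2 - 2 * a * b - 2 * (r * r') = (a - b) ^ 2 + (r - r') ^ 2 := by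
      linear_combination -h1 - h2
    rcases (show 0 ≤ 2 - 2 * a * b - 2 * (r * r') by rw [hsum]; positivity).eq_or_lt with h0 | hδ
    · -- the equator
      rw [hsum] at h0
      have ha : a - b = 0 := by nlinarith [sq_nonneg (a - b), sq_nonneg (r - r')]
      have hab' : a = b := by linarith
      subst hab'
      have ha0 : a = 0 := by nlinarith
      subst ha0
      have hr1 : r = 1 := by nlinarith
      have hr1' : r' = 1 := by nlinarith
      subst hr1
      subst hr1'
      have hd : Disjoint (dirs 1 A) (dirs 1 B) := by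
        rw [Finset.disjoint_left]
        intro u hu hv
        unfold dirs at hu hv
        rw [Finset.mem_image] at hu hv
        obtain ⟨x, hx, hxu⟩ := hu
        obtain ⟨y, hy, hyu⟩ := hv
        have h3 : hz x = hz y := by
          rw [← hxu] at hyu
          simpa using hyu.symm
        have h4 : x = y := by rw [← pt_hz x, ← pt_hz y, h3, (hA x hx).2, (hB y hy).2]
        rw [h4] at hx
        exact Finset.disjoint_left.1 hAB hx hy
      obtain ⟨h3, h4⟩ := equator_le (by omega) hUn hVn hcU hcV hd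
      obtain ⟨h5, h6, h7⟩ := stdY_spec (m := m) (N := N) hm2 hN0 one_pos one_pos h1 h1
      refine ⟨stdY m N 1 1 0 0, h5, h6, ?_, fun hle => ?_⟩
      · rw [h7, hE]
        linarith
      · rw [h7, hE] at hle
        have h8 := h4 (by linarith)
        apply Inv0.hasAxis
        apply (poles_inv0 N m).union
        apply inv0_of_dirs (a := 0) one_pos
        · intro x hx
          rw [Finset.mem_union] at hx
          exact hx.elim (fun hx => (hA x hx).2) fun hx => (hB x hx).2
        · have e : dirs 1 (A ∪ B) = dirs 1 A ∪ dirs 1 B := by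
            unfold dirs
            rw [Finset.image_union]
          rw [e]
          exact h8
    · obtain ⟨h3, h4⟩ := main_le hr hr' h1 h2 hab hδ (by omega) hUn hVn hcU hcV
      obtain ⟨h5, h6, h7⟩ := stdY_spec (m := m) (N := N) hm2 hN0 hr hr' h1 h2
      refine ⟨stdY m N r r' a b, h5, h6, ?_, fun hle => ?_⟩
      · rw [h7, hE]
        linarith
      · rw [h7, hE] at hle
        obtain ⟨h8, h9⟩ := h4 (by linarith)
        apply Inv0.hasAxis
        exact (poles_inv0 N m).union ((inv0_of_dirs hr (fun x hx => (hA x hx).2) h8).union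
          (inv0_of_dirs hr' (fun x hx => (hB x hx).2) h9))
  · -- the same hemisphere
    have h2' : r' ^ 2 + (-b) ^ 2 = 1 := by rw [neg_sq]; exact h2
    have hδ : 0 < 2 - 2 * a * (-b) - 2 * (r * r') := by
      have : 2 - 2 * a * (-b) - 2 * (r * r') = (a + b) ^ 2 + (r - r') ^ 2 := by
        linear_combination -h1 - h2
      rw [this]
      have h3 : 0 < (a + b) ^ 2 := by nlinarith [sq_nonneg a, sq_nonneg b]
      positivity
    obtain ⟨h3, h4⟩ := main_le hr hr' h1 h2' (by linarith) hδ (by omega) hUn hVn hcU hcV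
    obtain ⟨h5, h6, h7⟩ := stdY_spec (m := m) (N := N) hm2 hN0 hr hr' h1 h2'
    have hlt : Tk r r' a (-b) (dirs r A) (dirs r' B) < Tk r r' a b (dirs r A) (dirs r' B) := by
      apply flip_lt hab
      · rw [← Finset.card_pos, hcU]
        omega
      · rw [← Finset.card_pos, hcV]
        omega
      · intro u hu v hv
        unfold dirs at hu hv
        rw [Finset.mem_image] at hu hv
        obtain ⟨x, hx, rfl⟩ := hu
        obtain ⟨y, hy, rfl⟩ := hv
        have hxy : x ≠ y := by
          rintro rfl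
          exact Finset.disjoint_left.1 hAB hx hy
        have h8 := dist_planes hr hr' (hA x hx).1 (hB y hy).1 (hA x hx).2 (hB y hy).2
        have h9 : 0 < 1 / dist x y := by
          have := dist_pos.2 hxy
          positivity
        rw [h8, Gk] at h9
        by_contra hcon
        push Not at hcon
        rw [Real.sqrt_eq_zero_of_nonpos hcon, div_zero] at h9
        exact lt_irrefl _ h9
    have hlt' : energy (stdY m N r r' a (-b)) < energy (poles m ∪ (A ∪ B)) := by
      rw [h7, hE, polePot_neg hm]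
      linarith
    exact ⟨stdY m N r r' a (-b), h5, h6, hlt'.le, fun hle => absurd hle (not_le.2 hlt')⟩

end

end Pool.Agent.TPL
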